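import Pool.Agent.R525.TW.Defs

set_option autoImplicit false

open MeasureTheory Set Filter Topology

namespace Pool.Agent.R525.TW

/-- TW-BAS: basic facts on the functions `F k`. -/
structure BasP : Prop where
  nonneg : ∀ k t, 0 ≤ F k t
  le_one : ∀ k t, F k t ≤ 1
  neg : ∀ k t, t < 0 → F k t = 0
  zero : ∀ k, F (k + 1) 0 = 0
  cont : ∀ k, Continuous (F (k + 1))
  mono : ∀ k, Monotone (F k)
  strict : ∀ k, StrictMonoOn (F (k + 1)) (Ici 0)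
  pos : ∀ k t, 0 < t → 0 < F k t
  lt_one : ∀ k t, F (k + 1) t < 1
  dec : ∀ k t, F (k + 1) t ≤ F k t
  dec_lt : ∀ k t, 0 < t → F (k + 1) t < F k t
  top : ∀ k, Tendsto (F k) atTop (𝓝 1)
  rder : ∀ k t, HasDerivWithinAt (F (k + 1)) (F k t * (F k t - F (k + 1) t)) (Ici t) t
  der : ∀ k t, HasDerivAt (F (k + 2)) (F (k + 1) t * (F (k + 1) t - F (k + 2) t)) t
  one : ∀ t, 0 ≤ t → F 1 t = 1 - Real.exp (-t)

/-- TW-ONE: one sign change. -/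
def OneP : Prop := ∀ (k : ℕ) (a t1 t2 : ℝ), t1 < t2 → F (k + 1) (t1 + a) < F k t1 →
  F (k + 1) (t2 + a) ≤ F k t2

/-- TW-STEEP: `F (k+1)` is steeper than `F (k+2)`. -/
def SteepP : Prop := ∀ (k : ℕ) (x y s : ℝ), 0 < x → 0 < y → F (k + 1) x = F (k + 2) y → 0 ≤ s →
  F (k + 2) (y + s) ≤ F (k + 1) (x + s) ∧ F (k + 1) (x - s) ≤ F (k + 2) (y - s)

/-- TW-GAP: quantitative gap between consecutive functions, and bound of the delay. -/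
def GapP : Prop :=
  (∀ (k : ℕ) (B : ℝ), 0 < B →
    F (k + 1) B * (1 - F (k + 1) B) ^ 2 / 2 ≤ F (k + 1) B - F (k + 2) B) ∧
  (∀ (k : ℕ) (x y : ℝ), F (k + 1) x = 1 / 2 → F (k + 2) y = 1 / 2 → x ≤ y ∧ y ≤ x + 4)

/-- TW-WID: the distance of two levels is bounded uniformly in `k`. -/
def WidP : Prop := ∀ v w : ℝ, 0 < v → v < w → w < 1 → ∃ L : ℝ, 0 < L ∧
  ∀ (k : ℕ) (x x' : ℝ), F (k + 1) x = v → F (k + 1) x' = w → x' - x ≤ L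

/-- The data produced by TW-LIM. -/
structure Lim (m : ℕ → ℝ) (W : ℝ → ℝ) : Prop where
  half : ∀ k, F (k + 1) (m k) = 1 / 2
  step : ∀ k, m k ≤ m (k + 1) ∧ m (k + 1) ≤ m k + 4
  lim : ∀ s, Tendsto (fun k => F (k + 1) (m k + s)) atTop (𝓝 (W s))
  mono : Monotone W
  cont : Continuous W
  bounds : ∀ s, 0 ≤ W s ∧ W s ≤ 1
  bot : Tendsto W atBot (𝓝 0)
  top : Tendsto W atTop (𝓝 1)

/-- TW-LIM: convergence to a limit. -/
def LimP : Prop := ∃ (m : ℕ → ℝ) (W : ℝ → ℝ), Lim m W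

/-- TW-EQN: limits of the delays along subsequences give the wave equation. -/
def EqnP : Prop := ∀ (m : ℕ → ℝ) (W : ℝ → ℝ), Lim m W → ∀ (j : ℕ → ℕ) (τ : ℝ),
  Tendsto j atTop atTop → Tendsto (fun i => m (j i + 1) - m (j i)) atTop (𝓝 τ) →
  ∀ s, HasDerivAt W (W (s + τ) * (W (s + τ) - W s)) s

/-- TW-TAU: the delays converge to a positive number. -/
def TauP : Prop := ∀ (m : ℕ → ℝ) (W : ℝ → ℝ), Lim m W →
  ∃ τ : ℝ, 0 < τ ∧ Tendsto (fun k => m (k + 1) - m k) atTop (𝓝 τ)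

/-- TW-UNI: uniform convergence of monotone functions. -/
def UniP : Prop := ∀ (f : ℕ → ℝ → ℝ) (W : ℝ → ℝ), (∀ k, Monotone (f k)) →
  (∀ k s, 0 ≤ f k s ∧ f k s ≤ 1) → Continuous W → Monotone W →
  Tendsto W atBot (𝓝 0) → Tendsto W atTop (𝓝 1) →
  (∀ s, Tendsto (fun k => f k s) atTop (𝓝 (W s))) →
  ∀ ε : ℝ, 0 < ε → ∃ K : ℕ, ∀ k, K ≤ k → ∀ s, |f k s - W s| ≤ ε

/-- TW-POS: first properties of every wave profile. -/
def PosP : Prop := ∀ (τ : ℝ) (W : ℝ → ℝ), 0 < τ → IsProfile τ W →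
  1 < τ ∧ ∀ s, 0 < W s ∧ W s < 1

/-- TW-TAIL0U: upper double exponential bound at `-∞`. -/
def Tail0uP : Prop := ∀ (τ : ℝ) (W : ℝ → ℝ), 0 < τ → IsProfile τ W → ∃ C : ℝ, 1 ≤ C ∧
  ∀ r : ℝ, 0 ≤ r → W (-r) ≤ Real.exp (-(C⁻¹ * Real.exp (Real.log 2 / τ * r)))

/-- TW-TAIL0L: lower double exponential bound at `-∞`. -/
def Tail0lP : Prop := ∀ (τ : ℝ) (W : ℝ → ℝ), 0 < τ → IsProfile τ W → ∃ C : ℝ, 1 ≤ C ∧
  ∀ r : ℝ, 0 ≤ r → Real.exp (-(C * Real.exp (2 * Real.log 2 / τ * r))) ≤ W (-r)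

/-- TW-TAIL1: exponential bounds at `+∞`. -/
def Tail1P : Prop := ∀ (τ : ℝ) (W : ℝ → ℝ), 0 < τ → IsProfile τ W → ExpTail (fun r => 1 - W r)

end Pool.Agent.R525.TW
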