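import Mathlib
import Pool.Agent.R525.TW.Stm

/-! TW-BAS (MP_220de9_an): basic facts on the recursively defined functions. helper634. -/

set_option autoImplicit false

open MeasureTheory Set Filter Topology

namespace Pool.Agent.R525.TW

namespace BasAux

/-- the primitive of `phi k` -/
noncomputable def Ph (k : ℕ) (t : ℝ) : ℝ := ∫ u in (0:ℝ)..t, phi k u

lemma Ph_der (k : ℕ) (hc : Continuous (phi k)) (t : ℝ) : HasDerivAt (Ph k) (phi k t) t :=
  (hc.integral_hasStrictDerivAt 0 t).hasDerivAt

lemma Ph_cont (k : ℕ) (hc : Continuous (phi k)) : Continuous (Ph k) :=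
  continuous_iff_continuousAt.2 (fun t => (Ph_der k hc t).continuousAt)

lemma phi_eq (k : ℕ) (hc : Continuous (phi k)) (t : ℝ) : phi (k + 1) t =
    Real.exp (-Ph k t) * ∫ s in (0:ℝ)..t, (phi k s) ^ 2 * Real.exp (Ph k s) := by
  have h1 : phi (k + 1) t = ∫ s in (0:ℝ)..t, (phi k s) ^ 2 * Real.exp (-∫ u in s..t, phi k u) := rfl
  rw [h1, ← intervalIntegral.integral_const_mul]
  congr 1
  ext s
  have h2 : ∫ u in s..t, phi k u = Ph k t - Ph k s := by
    unfold Ph
    rw [intervalIntegral.integral_interval_sub_left (hc.intervalIntegrable _ _)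
      (hc.intervalIntegrable _ _)]
  rw [h2, neg_sub, sub_eq_add_neg, Real.exp_add]
  ring

lemma phi_der (k : ℕ) (hc : Continuous (phi k)) (t : ℝ) :
    HasDerivAt (phi (k + 1)) (phi k t * (phi k t - phi (k + 1) t)) t := by
  have hg : Continuous (fun s => (phi k s) ^ 2 * Real.exp (Ph k s)) :=
    (hc.pow 2).mul (Real.continuous_exp.comp (Ph_cont k hc))
  have h1 : HasDerivAt (fun t => ∫ s in (0:ℝ)..t, (phi k s) ^ 2 * Real.exp (Ph k s))
      ((phi k t) ^ 2 * Real.exp (Ph k t)) t := (hg.integral_hasStrictDerivAt 0 t).hasDerivAt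
  have h2 : HasDerivAt (fun t => Real.exp (-Ph k t)) (Real.exp (-Ph k t) * (-phi k t)) t :=
    ((Ph_der k hc t).neg).exp
  have h3 := h2.mul h1
  have h4 : (phi (k + 1)) = ((fun t => Real.exp (-Ph k t)) *
      fun t => ∫ s in (0:ℝ)..t, (phi k s) ^ 2 * Real.exp (Ph k s)) := by
    ext t
    exact phi_eq k hc t
  rw [h4]
  have h5 : Real.exp (-Ph k t) * Real.exp (Ph k t) = 1 := by
    rw [← Real.exp_add]; simp
  refine h3.congr_deriv ?_
  show Real.exp (-Ph k t) * (-phi k t) * (∫ s in (0:ℝ)..t, (phi k s) ^ 2 * Real.exp (Ph k s)) +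
    Real.exp (-Ph k t) * ((phi k t) ^ 2 * Real.exp (Ph k t)) =
    phi k t * (phi k t -
      Real.exp (-Ph k t) * ∫ s in (0:ℝ)..t, (phi k s) ^ 2 * Real.exp (Ph k s))
  linear_combination (phi k t) ^ 2 * h5

lemma phi_cont (k : ℕ) : Continuous (phi k) := by
  induction k with
  | zero =>
    have : phi 0 = fun _ => (1 : ℝ) := rfl
    rw [this]; exact continuous_const
  | succ k ih => exact continuous_iff_continuousAt.2 (fun t => (phi_der k ih t).continuousAt)

lemma phi_zero (k : ℕ) : phi (k + 1) 0 = 0 := by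
  have h1 : phi (k + 1) 0 = ∫ s in (0:ℝ)..0, (phi k s) ^ 2 * Real.exp (-∫ u in s..0, phi k u) := rfl
  rw [h1, intervalIntegral.integral_same]

/-- the induction hypothesis -/
structure Good (k : ℕ) : Prop where
  nonneg : ∀ t, 0 ≤ t → 0 ≤ phi k t
  le_one : ∀ t, 0 ≤ t → phi k t ≤ 1
  pos : ∀ t, 0 < t → 0 < phi k t
  mono : MonotoneOn (phi k) (Ici 0)
  top : Tendsto (phi k) atTop (𝓝 1)

lemma phi_lt (k : ℕ) (h : Good k) (t : ℝ) (ht : 0 < t) : phi (k + 1) t < phi k t := by
  have hc := phi_cont k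
  have hg : Continuous (fun s => (phi k s) ^ 2 * Real.exp (Ph k s)) :=
    (hc.pow 2).mul (Real.continuous_exp.comp (Ph_cont k hc))
  have hg2 : Continuous (fun s => phi k s * Real.exp (Ph k s)) :=
    hc.mul (Real.continuous_exp.comp (Ph_cont k hc))
  have h1 : ∫ s in (0:ℝ)..t, (phi k s) ^ 2 * Real.exp (Ph k s) ≤
      ∫ s in (0:ℝ)..t, phi k t * (phi k s * Real.exp (Ph k s)) := by
    apply intervalIntegral.integral_mono_on ht.le (hg.intervalIntegrable _ _)
      ((continuous_const.mul hg2).intervalIntegrable _ _)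
    intro s hs
    have h2 := h.nonneg s hs.1
    have h3 := h.mono hs.1 (show (0:ℝ) ≤ t from ht.le) hs.2
    have h4 : 0 ≤ phi k s * Real.exp (Ph k s) := mul_nonneg h2 (Real.exp_pos _).le
    have h5 := mul_le_mul_of_nonneg_right h3 h4
    calc (phi k s) ^ 2 * Real.exp (Ph k s) = phi k s * (phi k s * Real.exp (Ph k s)) := by ring
      _ ≤ _ := h5
  have h2 : ∫ s in (0:ℝ)..t, phi k s * Real.exp (Ph k s) = Real.exp (Ph k t) - Real.exp (Ph k 0) := by
    apply intervalIntegral.integral_eq_sub_of_hasDerivAt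
    · intro s _
      have := (Ph_der k hc s).exp
      rw [mul_comm] at this
      exact this
    · exact hg2.intervalIntegrable _ _
  have h0 : Ph k 0 = 0 := by unfold Ph; exact intervalIntegral.integral_same
  rw [intervalIntegral.integral_const_mul, h2, h0, Real.exp_zero] at h1
  rw [phi_eq k hc t]
  have h3 : Real.exp (-Ph k t) * Real.exp (Ph k t) = 1 := by
    rw [← Real.exp_add]; simp
  have h4 := mul_le_mul_of_nonneg_left h1 (Real.exp_pos (-Ph k t)).le
  refine lt_of_le_of_lt h4 ?_
  have h5 : Real.exp (-Ph k t) * (phi k t * (Real.exp (Ph k t) - 1)) =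
      phi k t - phi k t * Real.exp (-Ph k t) := by
    linear_combination (phi k t) * h3
  rw [h5]
  have h6 := mul_pos (h.pos t ht) (Real.exp_pos (-Ph k t))
  linarith

lemma phi_strict (k : ℕ) (h : Good k) : StrictMonoOn (phi (k + 1)) (Ici 0) := by
  apply strictMonoOn_of_deriv_pos (convex_Ici 0) (phi_cont (k + 1)).continuousOn
  intro x hx
  rw [interior_Ici] at hx
  rw [(phi_der k (phi_cont k) x).deriv]
  exact mul_pos (h.pos x hx) (by linarith [phi_lt k h x hx])

lemma F_succ (k : ℕ) (t : ℝ) : F (k + 1) t = phi (k + 1) (max t 0) := by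
  unfold F
  split_ifs with h
  · rw [max_eq_right h.le, phi_zero]
  · rw [max_eq_left (not_lt.1 h)]

lemma F_of_nonneg (k : ℕ) (t : ℝ) (ht : 0 ≤ t) : F k t = phi k t := by
  unfold F; rw [if_neg (not_lt.2 ht)]

lemma F_of_neg (k : ℕ) (t : ℝ) (ht : t < 0) : F k t = 0 := by
  unfold F; rw [if_pos ht]

lemma good_succ (k : ℕ) (h : Good k) : Good (k + 1) := by
  have hs := phi_strict k h
  have hz := phi_zero k
  have hpos : ∀ t, 0 < t → 0 < phi (k + 1) t := by
    intro t ht
    have := hs (Set.mem_Ici.2 (le_refl (0:ℝ))) (Set.mem_Ici.2 ht.le) ht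
    rw [hz] at this
    exact this
  have hnn : ∀ t, 0 ≤ t → 0 ≤ phi (k + 1) t := by
    intro t ht
    rcases ht.eq_or_lt with rfl | ht
    · rw [hz]
    · exact (hpos t ht).le
  have hle : ∀ t, 0 ≤ t → phi (k + 1) t ≤ 1 := by
    intro t ht
    rcases ht.eq_or_lt with rfl | ht
    · rw [hz]; exact zero_le_one
    · exact (phi_lt k h t ht).le.trans (h.le_one t ht.le)
  refine ⟨hnn, hle, hpos, hs.monotoneOn, ?_⟩
  -- limit
  have hmono : Monotone (F (k + 1)) := by
    intro s t hst
    rw [F_succ, F_succ]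
    exact hs.monotoneOn (Set.mem_Ici.2 (le_max_right _ _)) (Set.mem_Ici.2 (le_max_right _ _))
      (max_le_max hst le_rfl)
  have hbdd : BddAbove (Set.range (F (k + 1))) := by
    refine ⟨1, ?_⟩
    rintro _ ⟨t, rfl⟩
    rw [F_succ]
    exact hle _ (le_max_right _ _)
  have hlim := tendsto_atTop_ciSup hmono hbdd
  set Lm := ⨆ i, F (k + 1) i with hLm
  have hL1 : Lm ≤ 1 := by
    apply ciSup_le
    intro t
    rw [F_succ]
    exact hle _ (le_max_right _ _)
  have hev : F (k + 1) =ᶠ[atTop] phi (k + 1) := by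
    filter_upwards [eventually_ge_atTop (0:ℝ)] with t ht
    exact F_of_nonneg _ t ht
  have hlim2 : Tendsto (phi (k + 1)) atTop (𝓝 Lm) := hlim.congr' hev
  rcases hL1.eq_or_lt with h1 | h1
  · rw [h1] at hlim2; exact hlim2
  · exfalso
    have h2 : Tendsto (fun t => phi k t * (phi k t - phi (k + 1) t)) atTop (𝓝 (1 * (1 - Lm))) :=
      h.top.mul (h.top.sub hlim2)
    have h3 : ∀ᶠ t in atTop, (1 - Lm) / 2 < phi k t * (phi k t - phi (k + 1) t) := by
      apply h2.eventually_const_lt
      linarith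
    obtain ⟨T, hT⟩ := (h3.and (eventually_ge_atTop (0:ℝ))).exists_forall_of_atTop
    have hT0 : 0 ≤ T := (hT T le_rfl).2
    have h4 := Convex.mul_sub_le_image_sub_of_le_deriv (convex_Ici T)
      (phi_cont (k + 1)).continuousOn
      (fun x _ => (phi_der k (phi_cont k) x).differentiableAt.differentiableWithinAt)
      (C := (1 - Lm) / 2) (fun x hx => by
        rw [interior_Ici] at hx
        rw [(phi_der k (phi_cont k) x).deriv]
        exact ((hT x (le_of_lt hx)).1).le) T (self_mem_Ici) (T + 4 / (1 - Lm))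
        (by
          show T ≤ T + 4 / (1 - Lm)
          have : 0 ≤ 4 / (1 - Lm) := div_nonneg (by norm_num) (by linarith)
          linarith) (by
          have : 0 ≤ 4 / (1 - Lm) := div_nonneg (by norm_num) (by linarith)
          linarith)
    have h5 : (1 - Lm) / 2 * (T + 4 / (1 - Lm) - T) = 2 := by
      have : (1 - Lm) ≠ 0 := by linarith
      field_simp
      ring
    rw [h5] at h4
    have h6 : 0 ≤ 4 / (1 - Lm) := div_nonneg (by norm_num) (by linarith)
    have h7 := hle (T + 4 / (1 - Lm)) (by linarith)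
    have h8 := hnn T hT0
    linarith

lemma good (k : ℕ) : Good k := by
  induction k with
  | zero =>
    have h : ∀ t, phi 0 t = 1 := fun _ => rfl
    refine ⟨fun t _ => by rw [h]; exact zero_le_one, fun t _ => by rw [h],
      fun t _ => by rw [h]; exact zero_lt_one, fun s _ t _ _ => by rw [h, h], ?_⟩
    have : phi 0 = fun _ => (1 : ℝ) := rfl
    rw [this]; exact tendsto_const_nhds
  | succ k ih => exact good_succ k ih

lemma rder (k : ℕ) (t : ℝ) :
    HasDerivWithinAt (F (k + 1)) (F k t * (F k t - F (k + 1) t)) (Ici t) t := by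
  rcases lt_or_ge t 0 with ht | ht
  · rw [F_of_neg k t ht, zero_mul]
    have h1 : F (k + 1) =ᶠ[𝓝 t] fun _ => (0 : ℝ) := by
      filter_upwards [Iio_mem_nhds ht] with s hs
      exact F_of_neg _ s hs
    exact ((hasDerivAt_const t (0 : ℝ)).congr_of_eventuallyEq h1).hasDerivWithinAt
  · rw [F_of_nonneg k t ht, F_of_nonneg (k + 1) t ht]
    apply (phi_der k (phi_cont k) t).hasDerivWithinAt.congr
    · intro s hs
      exact F_of_nonneg _ s (ht.trans hs)
    · exact F_of_nonneg _ t ht

end BasAux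

open BasAux in
theorem basP : BasP := by
  refine ⟨?_, ?_, ?_, ?_, ?_, ?_, ?_, ?_, ?_, ?_, ?_, ?_, ?_, ?_, ?_⟩
  · -- nonneg
    intro k t
    rcases lt_or_ge t 0 with ht | ht
    · rw [F_of_neg k t ht]
    · rw [F_of_nonneg k t ht]; exact (good k).nonneg t ht
  · -- le_one
    intro k t
    rcases lt_or_ge t 0 with ht | ht
    · rw [F_of_neg k t ht]; exact zero_le_one
    · rw [F_of_nonneg k t ht]; exact (good k).le_one t ht
  · -- neg
    intro k t ht
    exact F_of_neg k t ht
  · -- zero
    intro k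
    rw [F_of_nonneg (k + 1) 0 le_rfl, phi_zero]
  · -- cont
    intro k
    have : F (k + 1) = fun t => phi (k + 1) (max t 0) := by
      ext t; exact F_succ k t
    rw [this]
    exact (phi_cont (k + 1)).comp (continuous_id.max continuous_const)
  · -- mono
    intro k s t hst
    rcases lt_or_ge s 0 with hs | hs
    · rw [F_of_neg k s hs]
      rcases lt_or_ge t 0 with ht | ht
      · rw [F_of_neg k t ht]
      · rw [F_of_nonneg k t ht]; exact (good k).nonneg t ht
    · rw [F_of_nonneg k s hs, F_of_nonneg k t (hs.trans hst)]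
      exact (good k).mono hs (show t ∈ Ici (0:ℝ) from hs.trans hst) hst
  · -- strict
    intro k s hs t ht hst
    rw [F_of_nonneg (k + 1) s hs, F_of_nonneg (k + 1) t ht]
    exact phi_strict k (good k) hs ht hst
  · -- pos
    intro k t ht
    rw [F_of_nonneg k t ht.le]; exact (good k).pos t ht
  · -- lt_one
    intro k t
    rcases lt_trichotomy t 0 with ht | ht | ht
    · rw [F_of_neg _ t ht]; exact zero_lt_one
    · rw [ht, F_of_nonneg (k + 1) 0 le_rfl, phi_zero]; exact zero_lt_one
    · rw [F_of_nonneg _ t ht.le]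
      exact lt_of_lt_of_le (phi_lt k (good k) t ht) ((good k).le_one t ht.le)
  · -- dec
    intro k t
    rcases lt_trichotomy t 0 with ht | ht | ht
    · rw [F_of_neg _ t ht, F_of_neg _ t ht]
    · rw [ht, F_of_nonneg (k + 1) 0 le_rfl, phi_zero, F_of_nonneg k 0 le_rfl]
      exact (good k).nonneg 0 le_rfl
    · rw [F_of_nonneg _ t ht.le, F_of_nonneg _ t ht.le]
      exact (phi_lt k (good k) t ht).le
  · -- dec_lt
    intro k t ht
    rw [F_of_nonneg _ t ht.le, F_of_nonneg _ t ht.le]
    exact phi_lt k (good k) t ht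
  · -- top
    intro k
    apply (good k).top.congr'
    filter_upwards [eventually_ge_atTop (0:ℝ)] with t ht
    exact (F_of_nonneg _ t ht).symm
  · -- rder
    exact rder
  · -- der
    intro k t
    rcases lt_trichotomy t 0 with ht | ht | ht
    · rw [F_of_neg (k + 1) t ht, zero_mul]
      have h1 : F (k + 2) =ᶠ[𝓝 t] fun _ => (0 : ℝ) := by
        filter_upwards [Iio_mem_nhds ht] with s hs
        exact F_of_neg _ s hs
      exact (hasDerivAt_const t (0 : ℝ)).congr_of_eventuallyEq h1
    · subst ht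
      have h1 := rder (k + 1) 0
      have h2 : F (k + 1) 0 = 0 := by rw [F_of_nonneg (k + 1) 0 le_rfl, phi_zero]
      rw [h2, zero_mul] at h1
      rw [h2, zero_mul]
      have h3 : HasDerivWithinAt (F (k + 2)) 0 (Iic 0) 0 := by
        apply (hasDerivWithinAt_const (0:ℝ) (Iic (0:ℝ)) (0:ℝ)).congr
        · intro s hs
          rcases (show s ≤ 0 from hs).eq_or_lt with h | h
          · rw [h, F_of_nonneg (k + 2) 0 le_rfl, phi_zero]
          · exact F_of_neg _ s h
        · rw [F_of_nonneg (k + 2) 0 le_rfl, phi_zero]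
      have h4 := h3.union h1
      rw [Iic_union_Ici, hasDerivWithinAt_univ] at h4
      exact h4
    · rw [F_of_nonneg (k + 1) t ht.le, F_of_nonneg (k + 2) t ht.le]
      have h1 : F (k + 2) =ᶠ[𝓝 t] phi (k + 2) := by
        filter_upwards [Ioi_mem_nhds ht] with s hs
        exact F_of_nonneg _ s (le_of_lt hs)
      exact (phi_der (k + 1) (phi_cont (k + 1)) t).congr_of_eventuallyEq h1
  · -- one
    intro t ht
    rw [F_of_nonneg 1 t ht, phi_eq 0 (phi_cont 0) t]
    have h0 : ∀ s, phi 0 s = 1 := fun _ => rfl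
    have h1 : ∀ s, Ph 0 s = s := by
      intro s
      unfold Ph
      simp [h0]
    simp only [h0, h1, one_pow, one_mul, integral_exp, Real.exp_zero]
    have h3 : Real.exp (-t) * Real.exp t = 1 := by
      rw [← Real.exp_add]; simp
    linear_combination h3

end Pool.Agent.R525.TW
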