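import Mathlib

set_option autoImplicit false

open MeasureTheory Set Filter Topology

noncomputable section

namespace Pool.Agent.R525.TW

/-- The functions `φ_k` of the problem; only the values at `t ≥ 0` matter. -/
def phi : ℕ → ℝ → ℝ
  | 0 => fun _ => 1
  | (k + 1) => fun t => ∫ s in (0:ℝ)..t, (phi k s) ^ 2 * Real.exp (-∫ u in s..t, phi k u)

/-- A wave profile with delay `τ`. -/
structure IsProfile (τ : ℝ) (W : ℝ → ℝ) : Prop where
  smooth : ContDiff ℝ 1 W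
  mono : Monotone W
  bounds : ∀ s, 0 ≤ W s ∧ W s ≤ 1
  bot : Tendsto W atBot (𝓝 0)
  top : Tendsto W atTop (𝓝 1)
  eqn : ∀ s, HasDerivAt W (W (s + τ) * (W (s + τ) - W s)) s

/-- `D` is an exponential tail. -/
def ExpTail (D : ℝ → ℝ) : Prop := ∃ a b C : ℝ, 0 < a ∧ a ≤ b ∧ 1 ≤ C ∧ ∀ r : ℝ, 0 ≤ r →
  C⁻¹ * Real.exp (-(b * r)) ≤ D r ∧ D r ≤ C * Real.exp (-(a * r))

/-- `D` is a double exponential tail. -/
def DoubleExpTail (D : ℝ → ℝ) : Prop := ∃ a b C : ℝ, 0 < a ∧ a ≤ b ∧ 1 ≤ C ∧ ∀ r : ℝ, 0 ≤ r →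
  Real.exp (-(C * Real.exp (b * r))) ≤ D r ∧ D r ≤ Real.exp (-(C⁻¹ * Real.exp (a * r)))

/-- The function `φ_k`, extended by `0` to the negative axis. -/
def F (k : ℕ) (t : ℝ) : ℝ := if t < 0 then 0 else phi k t

end Pool.Agent.R525.TW
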