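import Pool.Agent.R525.TW.Stm

set_option autoImplicit false

open MeasureTheory Set Filter Topology

namespace Pool.Agent.R525.TW

namespace EqnAux

lemma cont_all (h : BasP) (k : ℕ) : Continuous (F (k + 1)) := h.cont k

/-- the right hand side is bounded by one -/
lemma bound (h : BasP) (k : ℕ) (t : ℝ) : |F k t * (F k t - F (k + 1) t)| ≤ 1 := by
  have h0 := h.nonneg k t
  have h1 := h.le_one k t
  have h2 := h.nonneg (k + 1) t
  have h3 := h.dec k t
  rw [abs_of_nonneg (mul_nonneg h0 (by linarith))]
  nlinarith

/-- Lipschitz bound -/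
lemma lip (h : BasP) (k : ℕ) (x y : ℝ) : |F (k + 2) y - F (k + 2) x| ≤ |y - x| := by
  have key := Convex.norm_image_sub_le_of_norm_hasDerivWithin_le (s := (univ : Set ℝ))
    (f := F (k + 2)) (f' := fun t => F (k + 1) t * (F (k + 1) t - F (k + 2) t)) (C := 1)
    (x := x) (y := y)
    (fun t _ => (h.der k t).hasDerivWithinAt)
    (fun t _ => by simpa [Real.norm_eq_abs] using bound h (k + 1) t)
    convex_univ (mem_univ _) (mem_univ _)
  simpa [Real.norm_eq_abs] using key

end EqnAux

open EqnAux

/-- TW-EQN -/
theorem eqnP (h : BasP) : EqnP := by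
  intro m W hL j τ hj hτ
  -- the limits
  have hj1 : Tendsto (fun i => j i + 1) atTop atTop := (tendsto_add_atTop_nat 1).comp hj
  have hG : ∀ s, Tendsto (fun i => F (j i + 2) (m (j i + 1) + s)) atTop (𝓝 (W s)) := by
    intro s
    exact (hL.lim s).comp hj1
  have hH : ∀ s, Tendsto (fun i => F (j i + 1) (m (j i + 1) + s)) atTop (𝓝 (W (s + τ))) := by
    intro s
    have h1 : Tendsto (fun i => F (j i + 1) (m (j i) + (s + τ))) atTop (𝓝 (W (s + τ))) :=
      (hL.lim (s + τ)).comp hj
    have h2 : Tendsto (fun i => |(m (j i + 1) - m (j i)) - τ|) atTop (𝓝 0) := by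
      have h3 := (hτ.sub_const τ).abs
      simpa using h3
    have h4 : Tendsto (fun i => F (j i + 1) (m (j i + 1) + s) - F (j i + 1) (m (j i) + (s + τ)))
        atTop (𝓝 0) := by
      apply squeeze_zero_norm' _ h2
      filter_upwards [hj.eventually_ge_atTop 1] with i hi
      obtain ⟨k, hk⟩ : ∃ k, j i = k + 1 := ⟨j i - 1, by omega⟩
      rw [hk, Real.norm_eq_abs]
      have h5 := lip h k (m (k + 1) + (s + τ)) (m (k + 1 + 1) + s)
      have h6 : m (k + 1 + 1) + s - (m (k + 1) + (s + τ)) = m (k + 1 + 1) - m (k + 1) - τ := by ring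
      rw [h6] at h5
      exact h5
    have h7 := h4.add h1
    simpa using h7
  -- the integral equation
  have hcW := hL.cont
  have hint : ∀ a b : ℝ, W b - W a = ∫ s in a..b, W (s + τ) * (W (s + τ) - W s) := by
    intro a b
    have hI : ∀ i, F (j i + 2) (m (j i + 1) + b) - F (j i + 2) (m (j i + 1) + a) =
        ∫ s in a..b, F (j i + 1) (m (j i + 1) + s) *
          (F (j i + 1) (m (j i + 1) + s) - F (j i + 2) (m (j i + 1) + s)) := by
      intro i
      symm
      apply intervalIntegral.integral_eq_sub_of_hasDerivAt
        (f := fun s => F (j i + 2) (m (j i + 1) + s))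
      · intro s _
        exact (h.der (j i) (m (j i + 1) + s)).comp_const_add (m (j i + 1)) s
      · apply Continuous.intervalIntegrable
        have c1 := h.cont (j i)
        have c2 := h.cont (j i + 1)
        have c1' : Continuous (fun s => F (j i + 1) (m (j i + 1) + s)) :=
          c1.comp (continuous_const.add continuous_id)
        have c2' : Continuous (fun s => F (j i + 2) (m (j i + 1) + s)) :=
          c2.comp (continuous_const.add continuous_id)
        exact c1'.mul (c1'.sub c2')
    have hlim1 : Tendsto (fun i => F (j i + 2) (m (j i + 1) + b) - F (j i + 2) (m (j i + 1) + a))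
        atTop (𝓝 (W b - W a)) := (hG b).sub (hG a)
    have hlim2 : Tendsto (fun i => ∫ s in a..b, F (j i + 1) (m (j i + 1) + s) *
          (F (j i + 1) (m (j i + 1) + s) - F (j i + 2) (m (j i + 1) + s))) atTop
        (𝓝 (∫ s in a..b, W (s + τ) * (W (s + τ) - W s))) := by
      apply intervalIntegral.tendsto_integral_filter_of_dominated_convergence (fun _ => (1 : ℝ))
      · refine Eventually.of_forall (fun i => ?_)
        have c1 := h.cont (j i)
        have c2 := h.cont (j i + 1)
        have c1' : Continuous (fun s => F (j i + 1) (m (j i + 1) + s)) :=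
          c1.comp (continuous_const.add continuous_id)
        have c2' : Continuous (fun s => F (j i + 2) (m (j i + 1) + s)) :=
          c2.comp (continuous_const.add continuous_id)
        exact (c1'.mul (c1'.sub c2')).aestronglyMeasurable
      · refine Eventually.of_forall (fun i => Eventually.of_forall (fun s _ => ?_))
        rw [Real.norm_eq_abs]
        exact bound h (j i + 1) (m (j i + 1) + s)
      · exact intervalIntegrable_const
      · refine Eventually.of_forall (fun s _ => ?_)
        exact (hH s).mul ((hH s).sub (hG s))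
    have hEq : (fun i => F (j i + 2) (m (j i + 1) + b) - F (j i + 2) (m (j i + 1) + a)) =
        (fun i => ∫ s in a..b, F (j i + 1) (m (j i + 1) + s) *
          (F (j i + 1) (m (j i + 1) + s) - F (j i + 2) (m (j i + 1) + s))) := funext hI
    rw [hEq] at hlim1
    exact tendsto_nhds_unique hlim1 hlim2
  -- differentiate
  intro s
  have hc : Continuous (fun u => W (u + τ) * (W (u + τ) - W u)) := by
    have c1 : Continuous (fun u => W (u + τ)) := hcW.comp (continuous_id.add continuous_const)
    exact c1.mul (c1.sub hcW)
  have hd := (hc.integral_hasStrictDerivAt s s).hasDerivAt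
  have hfun : W = fun x => W s + ∫ u in s..x, W (u + τ) * (W (u + τ) - W u) := by
    funext x
    rw [← hint s x]
    ring
  rw [hfun]
  have hd2 := hd.const_add (W s)
  have e1 : (fun x => W s + ∫ u in s..x, W (u + τ) * (W (u + τ) - W u)) = W := hfun.symm
  rw [e1] at hd2 ⊢
  exact hd2

end Pool.Agent.R525.TW
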