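import Pool.Agent.R525.TW.Stm

set_option autoImplicit false

open MeasureTheory Set Filter Topology

namespace Pool.Agent.R525.TW

namespace GapAux

theorem core (h : BasP) (h1 : SteepP) (k : ℕ) (B d : ℝ) (hB : 0 < B) (hd : 0 < d)
    (hud : F (k + 2) (B + d) = F (k + 1) B) :
    F (k + 2) B ≤ (F (k + 1) B) ^ 2 * d ∧
    (1 - F (k + 1) B) * d ≤ (F (k + 1) B - F (k + 2) B) / F (k + 1) B
      + (1 - (F (k + 1) B) ^ 2) / (2 * F (k + 1) B) := by
  have fc : Continuous (F (k + 1)) := h.cont k
  have uc : Continuous (F (k + 2)) := h.cont (k + 1)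
  have st1 : ∀ s, 0 ≤ s → F (k + 2) (B + d + s) ≤ F (k + 1) (B + s) := fun s hs =>
    (h1 k B (B + d) s hB (by linarith) hud.symm hs).1
  have st2 : ∀ s, 0 ≤ s → F (k + 1) (B - s) ≤ F (k + 2) (B + d - s) := fun s hs =>
    (h1 k B (B + d) s hB (by linarith) hud.symm hs).2
  have hc0 : 0 < F (k + 1) B := h.pos (k + 1) B hB
  have hc1 : F (k + 1) B < 1 := h.lt_one k B
  have hc' : 0 ≤ F (k + 2) B := h.nonneg (k + 2) B
  have hcc : F (k + 2) B < F (k + 1) B := h.dec_lt (k + 1) B hB
  have hu0 : F (k + 2) 0 = 0 := h.zero (k + 1)
  have hder := h.der k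
  have fm := h.mono (k + 1)
  have um := h.mono (k + 2)
  have hdec : ∀ t, F (k + 2) t ≤ F (k + 1) t := h.dec (k + 1)
  have hun := h.nonneg (k + 2)
  have hfn := h.nonneg (k + 1)
  have hf1 := h.le_one (k + 1)
  have hu1 := h.le_one (k + 2)
  have hftop := h.top (k + 1)
  set f := F (k + 1) with hf
  set u := F (k + 2) with hu
  set c := f B with hcdef
  have fi : ∀ a b, IntervalIntegrable f volume a b := fun a b => fc.intervalIntegrable a b
  have ui : ∀ a b, IntervalIntegrable u volume a b := fun a b => uc.intervalIntegrable a b
  have di : ∀ a b, IntervalIntegrable (fun t => f t - u t) volume a b :=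
    fun a b => (fc.sub uc).intervalIntegrable a b
  have pi : ∀ a b, IntervalIntegrable (fun t => f t * (f t - u t)) volume a b :=
    fun a b => (fc.mul (fc.sub uc)).intervalIntegrable a b
  have I8 : ∫ t in B..(B + d), u t ≤ c * d := by
    have e : ∫ t in B..(B + d), u t ≤ ∫ t in B..(B + d), c := by
      apply intervalIntegral.integral_mono_on (by linarith) (ui _ _) intervalIntegrable_const
      intro t ht
      rw [← hud]
      exact um ht.2
    rw [intervalIntegral.integral_const] at e
    simp only [smul_eq_mul] at e
    linarith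
  have adju : ∀ a b c', (∫ t in a..b, u t) + (∫ t in b..c', u t) = ∫ t in a..c', u t :=
    fun a b c' => intervalIntegral.integral_add_adjacent_intervals (ui _ _) (ui _ _)
  have adjf : ∀ a b c', (∫ t in a..b, f t) + (∫ t in b..c', f t) = ∫ t in a..c', f t :=
    fun a b c' => intervalIntegral.integral_add_adjacent_intervals (fi _ _) (fi _ _)
  constructor
  · -- (i), (ii)
    have I1 : ∫ t in (0:ℝ)..B, f t * (f t - u t) = u B - u 0 :=
      intervalIntegral.integral_eq_sub_of_hasDerivAt (fun t _ => hder t) (pi _ _)
    have I2 : ∫ t in (0:ℝ)..B, f t * (f t - u t) ≤ ∫ t in (0:ℝ)..B, c * (f t - u t) := by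
      apply intervalIntegral.integral_mono_on hB.le (pi _ _)
        ((di _ _).const_mul c)
      intro t ht
      exact mul_le_mul_of_nonneg_right (fm ht.2) (sub_nonneg.2 (hdec t))
    rw [intervalIntegral.integral_const_mul] at I2
    have I4 : ∫ t in (0:ℝ)..B, f t ≤ ∫ t in (0:ℝ)..B, u (t + d) := by
      apply intervalIntegral.integral_mono_on hB.le (fi _ _)
        ((uc.comp (continuous_id.add continuous_const)).intervalIntegrable _ _)
      intro t ht
      have := st2 (B - t) (sub_nonneg.2 ht.2)
      have e1 : B - (B - t) = t := by ring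
      have e2 : B + d - (B - t) = t + d := by ring
      rw [e1, e2] at this
      exact this
    rw [intervalIntegral.integral_comp_add_right u d, zero_add] at I4
    have I7 : 0 ≤ ∫ t in (0:ℝ)..d, u t :=
      intervalIntegral.integral_nonneg hd.le (fun t _ => hun t)
    have a1 := adju 0 d (B + d)
    have a2 := adju 0 B (B + d)
    have I9 : ∫ t in (0:ℝ)..B, (f t - u t) = (∫ t in (0:ℝ)..B, f t) - ∫ t in (0:ℝ)..B, u t :=
      intervalIntegral.integral_sub (fi _ _) (ui _ _)
    have I10 : ∫ t in (0:ℝ)..B, (f t - u t) ≤ c * d := by rw [I9]; linarith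
    rw [I1, hu0, sub_zero] at I2
    have := mul_le_mul_of_nonneg_left I10 hc0.le
    nlinarith
  · -- (iii), (iv)
    have key : ∀ T, B + d < T → d * f (T - d) - c * d ≤
        (c - u B) / c + (1 - c ^ 2) / (2 * c) := by
      intro T hT
      -- lower bound
      have L1 : ∫ t in B..(T - d), u (t + d) ≤ ∫ t in B..(T - d), f t := by
        apply intervalIntegral.integral_mono_on (by linarith)
          ((uc.comp (continuous_id.add continuous_const)).intervalIntegrable _ _) (fi _ _)
        intro t ht
        have := st1 (t - B) (sub_nonneg.2 ht.1)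
        have e1 : B + (t - B) = t := by ring
        have e2 : B + d + (t - B) = t + d := by ring
        rw [e1, e2] at this
        exact this
      rw [intervalIntegral.integral_comp_add_right u d, sub_add_cancel] at L1
      have L2 : d * f (T - d) ≤ ∫ t in (T - d)..T, f t := by
        have e : ∫ t in (T - d)..T, f (T - d) ≤ ∫ t in (T - d)..T, f t := by
          apply intervalIntegral.integral_mono_on (by linarith) intervalIntegrable_const (fi _ _)
          intro t ht
          exact fm ht.1
        rw [intervalIntegral.integral_const] at e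
        simp only [smul_eq_mul] at e
        have e3 : T - (T - d) = d := by ring
        rw [e3] at e
        exact e
      have a1 := adjf B (T - d) T
      have a2 := adju B (B + d) T
      have L3 : ∫ t in B..T, (f t - u t) = (∫ t in B..T, f t) - ∫ t in B..T, u t :=
        intervalIntegral.integral_sub (fi _ _) (ui _ _)
      have L4 : d * f (T - d) - c * d ≤ ∫ t in B..T, (f t - u t) := by
        rw [L3]; linarith
      -- upper bound on the first part
      have U1 : ∫ t in B..(B + d), (f t - u t) ≤ (c - u B) / c := by
        have e1 : ∫ t in B..(B + d), f t * (f t - u t) = u (B + d) - u B :=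
          intervalIntegral.integral_eq_sub_of_hasDerivAt (fun t _ => hder t) (pi _ _)
        have e2 : ∫ t in B..(B + d), c * (f t - u t) ≤ ∫ t in B..(B + d), f t * (f t - u t) := by
          apply intervalIntegral.integral_mono_on (by linarith) ((di _ _).const_mul c) (pi _ _)
          intro t ht
          exact mul_le_mul_of_nonneg_right (fm ht.1) (sub_nonneg.2 (hdec t))
        rw [intervalIntegral.integral_const_mul, e1, hud] at e2
        rw [le_div_iff₀ hc0]
        linarith
      -- upper bound on the second part
      have U2 : ∫ t in (B + d)..T, (f t - u t) ≤ (1 - c ^ 2) / (2 * c) := by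
        have hH : ∀ t, HasDerivAt (fun t => (u t - c) / c - (u t - c) ^ 2 / (2 * c))
            (f t * (f t - u t) / c - (2 * (u t - c) * (f t * (f t - u t))) / (2 * c)) t := by
          intro t
          have g1 := ((hder t).sub_const c).div_const c
          have g2 := (((hder t).sub_const c).pow 2).div_const (2 * c)
          have g3 : HasDerivAt (fun t => (u t - c) / c - (u t - c) ^ 2 / (2 * c))
            (f t * (f t - u t) / c - ((2 : ℕ) : ℝ) * (u t - c) ^ (2 - 1) * (f t * (f t - u t))
              / (2 * c)) t := g1.sub g2
          exact g3.congr_deriv (by norm_num)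
        have gc : Continuous (fun t => f t * (f t - u t) / c
            - (2 * (u t - c) * (f t * (f t - u t))) / (2 * c)) := by fun_prop
        have e1 := intervalIntegral.integral_eq_sub_of_hasDerivAt (a := B + d) (b := T)
          (fun t _ => hH t) (gc.intervalIntegrable _ _)
        have e2 : ∫ t in (B + d)..T, (f t - u t) ≤ ∫ t in (B + d)..T, (f t * (f t - u t) / c
            - (2 * (u t - c) * (f t * (f t - u t))) / (2 * c)) := by
          apply intervalIntegral.integral_mono_on hT.le (di _ _) (gc.intervalIntegrable _ _)
          intro t ht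
          have q1 : c ≤ u t := by rw [← hud]; exact um ht.1
          have q2 := hdec t
          have q3 := hu1 t
          have q4 : c ≤ f t * (1 - u t + c) := by
            have : u t * (1 - u t + c) ≤ f t * (1 - u t + c) :=
              mul_le_mul_of_nonneg_right q2 (by linarith)
            nlinarith [mul_nonneg (sub_nonneg.2 q3) (sub_nonneg.2 q1)]
          have q5 : f t * (f t - u t) / c - (2 * (u t - c) * (f t * (f t - u t))) / (2 * c)
              = (f t - u t) * (f t * (1 - u t + c)) / c := by
            field_simp
            ring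
          rw [q5, le_div_iff₀ hc0]
          exact mul_le_mul_of_nonneg_left q4 (sub_nonneg.2 q2)
        rw [e1] at e2
        simp only [hud, sub_self] at e2
        have e3 : (u T - c) / c - (u T - c) ^ 2 / (2 * c) ≤ (1 - c ^ 2) / (2 * c) := by
          have : (1 - c ^ 2) / (2 * c) - ((u T - c) / c - (u T - c) ^ 2 / (2 * c))
              = (1 - u T) * (1 - u T + 2 * c) / (2 * c) := by
            field_simp
            ring
          have h3 : 0 ≤ (1 - u T) * (1 - u T + 2 * c) / (2 * c) := by
            have := hu1 T
            apply div_nonneg _ (by linarith)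
            apply mul_nonneg (by linarith) (by linarith)
          linarith
        simp at e2
        linarith
      have U3 : (∫ t in B..(B + d), (f t - u t)) + (∫ t in (B + d)..T, (f t - u t))
          = ∫ t in B..T, (f t - u t) :=
        intervalIntegral.integral_add_adjacent_intervals (di _ _) (di _ _)
      linarith
    have hlim : Tendsto (fun T : ℝ => d * f (T - d) - c * d) atTop (𝓝 (d * 1 - c * d)) := by
      apply Tendsto.sub_const
      apply Tendsto.const_mul
      exact hftop.comp (tendsto_atTop_add_const_right _ (-d) tendsto_id)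
    have := le_of_tendsto hlim ((eventually_gt_atTop (B + d)).mono key)
    linarith

end GapAux

open GapAux

theorem gapP (h : BasP) (h1 : SteepP) : GapP := by
  constructor
  · intro k B hB
    have hc0 : 0 < F (k + 1) B := h.pos (k + 1) B hB
    have hc1 : F (k + 1) B < 1 := h.lt_one k B
    have hcc : F (k + 2) B < F (k + 1) B := h.dec_lt (k + 1) B hB
    have uc : Continuous (F (k + 2)) := h.cont (k + 1)
    -- intermediate value
    obtain ⟨y, hy, hyc⟩ : ∃ y, B < y ∧ F (k + 2) y = F (k + 1) B := by
      have htop := h.top (k + 2)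
      obtain ⟨M, hM1, hM2⟩ := ((htop.eventually (lt_mem_nhds hc1)).and
        (eventually_gt_atTop B)).exists
      have := intermediate_value_Ioo hM2.le (uc.continuousOn) ⟨hcc, hM1⟩
      obtain ⟨y, hy, hyc⟩ := this
      exact ⟨y, hy.1, hyc⟩
    have hd : 0 < y - B := sub_pos.2 hy
    obtain ⟨k1, k2⟩ := core h h1 k B (y - B) hB hd (by rw [add_sub_cancel]; exact hyc)
    have hc' : 0 ≤ F (k + 2) B := h.nonneg (k + 2) B
    set c := F (k + 1) B
    set c' := F (k + 2) B
    set d := y - B
    have k3 : c * ((1 - c) * d) ≤ (c - c') + (1 - c ^ 2) / 2 := by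
      have := mul_le_mul_of_nonneg_left k2 hc0.le
      have e : c * ((c - c') / c + (1 - c ^ 2) / (2 * c)) = (c - c') + (1 - c ^ 2) / 2 := by
        field_simp
      rw [e] at this
      exact this
    have k4 : (1 - c) * c' ≤ (1 - c) * (c ^ 2 * d) :=
      mul_le_mul_of_nonneg_left k1 (by linarith)
    have k5 : c * (c * ((1 - c) * d)) ≤ c * ((c - c') + (1 - c ^ 2) / 2) :=
      mul_le_mul_of_nonneg_left k3 hc0.le
    nlinarith
  · intro k x y hx hy
    have hx0 : 0 < x := by
      by_contra hn
      rcases lt_or_eq_of_le (not_lt.1 hn) with h2 | h2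
      · rw [h.neg _ _ h2] at hx; norm_num at hx
      · rw [h2, h.zero] at hx; norm_num at hx
    have hy0 : 0 < y := by
      by_contra hn
      rcases lt_or_eq_of_le (not_lt.1 hn) with h2 | h2
      · rw [h.neg _ _ h2] at hy; norm_num at hy
      · rw [h2] at hy
        have := h.zero (k + 1)
        rw [hy] at this; norm_num at this
    have hlt : F (k + 2) x < F (k + 1) x := h.dec_lt (k + 1) x hx0
    have hxy : x < y := by
      by_contra hn
      have := h.mono (k + 2) (not_lt.1 hn)
      rw [hy] at this
      linarith
    refine ⟨hxy.le, ?_⟩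
    obtain ⟨-, k2⟩ := core h h1 k x (y - x) hx0 (sub_pos.2 hxy)
      (by rw [add_sub_cancel, hx, hy])
    rw [hx] at k2
    have := h.nonneg (k + 2) x
    have e : (1 / 2 - F (k + 2) x) / (1 / 2) = 1 - 2 * F (k + 2) x := by ring
    rw [e] at k2
    norm_num at k2
    linarith

end Pool.Agent.R525.TW
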