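import Pool.Agent.R525.TW.Stm

set_option autoImplicit false

open MeasureTheory Set Filter Topology

namespace Pool.Agent.R525.TW

namespace LimAux

theorem exists_level (h : BasP) (k : ℕ) {c : ℝ} (hc0 : 0 < c) (hc1 : c < 1) :
    ∃ x, F (k + 1) x = c := by
  obtain ⟨b, hb⟩ := ((h.top (k + 1)).eventually (lt_mem_nhds hc1)).exists
  have h1 : c ∈ Set.range (F (k + 1)) :=
    mem_range_of_exists_le_of_exists_ge (h.cont k) ⟨0, by rw [h.zero k]; exact hc0.le⟩ ⟨b, hb.le⟩
  exact h1

theorem level_pos (h : BasP) (k : ℕ) {c x : ℝ} (hc0 : 0 < c) (hx : F (k + 1) x = c) : 0 < x := by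
  by_contra hcon
  have h1 := h.mono (k + 1) (not_lt.1 hcon)
  rw [h.zero k, hx] at h1
  linarith

theorem lip (h : BasP) (k : ℕ) {x y : ℝ} (hxy : x ≤ y) :
    |F (k + 1) y - F (k + 1) x| ≤ y - x := by
  have h1 := norm_image_sub_le_of_norm_deriv_right_le_segment (f := F (k + 1)) (a := x) (b := y)
    (C := 1) ((h.cont k).continuousOn) (fun t _ => h.rder k t) (fun t _ => by
      have h2 := h.nonneg k t
      have h3 := h.le_one k t
      have h4 := h.dec k t
      have h5 := h.nonneg (k + 1) t
      rw [Real.norm_of_nonneg (mul_nonneg h2 (by linarith))]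
      nlinarith) y (right_mem_Icc.2 hxy)
  rw [Real.norm_eq_abs, one_mul] at h1
  exact h1

theorem lip' (h : BasP) (k : ℕ) (x y : ℝ) : |F (k + 1) x - F (k + 1) y| ≤ |x - y| := by
  rcases le_total x y with hxy | hxy
  · rw [abs_sub_comm, abs_sub_comm x y, abs_of_nonneg (sub_nonneg.2 hxy)]
    exact lip h k hxy
  · rw [abs_of_nonneg (sub_nonneg.2 hxy)]
    exact lip h k hxy

end LimAux

open LimAux in
theorem limP (h : BasP) (h1 : SteepP) (h2 : GapP) (h3 : WidP) : LimP := by
  have hex : ∀ k : ℕ, ∃ x, F (k + 1) x = 1 / 2 := fun k =>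
    exists_level h k (by norm_num) (by norm_num)
  choose m hm using hex
  have hmpos : ∀ k, 0 < m k := fun k => level_pos h k (by norm_num) (hm k)
  have hst : ∀ (k : ℕ) (s : ℝ), 0 ≤ s → F (k + 2) (m (k + 1) + s) ≤ F (k + 1) (m k + s) ∧
      F (k + 1) (m k - s) ≤ F (k + 2) (m (k + 1) - s) := by
    intro k s hs
    refine h1 k (m k) (m (k + 1)) s (hmpos k) (hmpos (k + 1)) ?_ hs
    rw [hm k]
    exact (hm (k + 1)).symm
  have hconv : ∀ s : ℝ, ∃ l : ℝ, Tendsto (fun k => F (k + 1) (m k + s)) atTop (𝓝 l) := by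
    intro s
    rcases le_total 0 s with hs | hs
    · have ha : Antitone fun k => F (k + 1) (m k + s) :=
        antitone_nat_of_succ_le fun k => (hst k s hs).1
      exact ⟨_, tendsto_atTop_ciInf ha ⟨0, by rintro _ ⟨k, rfl⟩; exact h.nonneg _ _⟩⟩
    · have ha : Monotone fun k => F (k + 1) (m k + s) := by
        refine monotone_nat_of_le_succ fun k => ?_
        have h4 := (hst k (-s) (by linarith)).2
        rw [sub_neg_eq_add, sub_neg_eq_add] at h4
        exact h4
      exact ⟨_, tendsto_atTop_ciSup ha ⟨1, by rintro _ ⟨k, rfl⟩; exact h.le_one _ _⟩⟩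
  choose W hW using hconv
  have hmono : Monotone W := fun s t hst =>
    le_of_tendsto_of_tendsto' (hW s) (hW t) fun k => h.mono (k + 1) (by linarith)
  have hb : ∀ s, 0 ≤ W s ∧ W s ≤ 1 := fun s =>
    ⟨ge_of_tendsto' (hW s) fun k => h.nonneg _ _, le_of_tendsto' (hW s) fun k => h.le_one _ _⟩
  have hlip : ∀ s t, |W s - W t| ≤ |s - t| := by
    intro s t
    refine le_of_tendsto' ((hW s).sub (hW t)).abs fun k => ?_
    have h4 := lip' h k (m k + s) (m k + t)
    rwa [add_sub_add_left_eq_sub] at h4
  have hcont : Continuous W := by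
    have : LipschitzWith 1 W := LipschitzWith.of_dist_le_mul fun s t => by
      rw [Real.dist_eq, Real.dist_eq, NNReal.coe_one, one_mul]
      exact hlip s t
    exact this.continuous
  refine ⟨m, W, hm, fun k => h2.2 k (m k) (m (k + 1)) (hm k) (hm (k + 1)), hW, hmono, hcont, hb,
    ?_, ?_⟩
  · rw [tendsto_order]
    constructor
    · intro a ha
      exact Eventually.of_forall fun s => lt_of_lt_of_le ha (hb s).1
    · intro a ha
      obtain ⟨L, hL, hL2⟩ := h3 (min (a / 2) (1 / 4)) (1 / 2) (by positivity)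
        (lt_of_le_of_lt (min_le_right _ _) (by norm_num)) (by norm_num)
      have h4 : W (-L) ≤ min (a / 2) (1 / 4) := by
        refine le_of_tendsto' (hW (-L)) fun k => ?_
        obtain ⟨x, hx⟩ := exists_level h k (c := min (a / 2) (1 / 4)) (by positivity)
          (lt_of_le_of_lt (min_le_right _ _) (by norm_num))
        have h5 := hL2 k x (m k) hx (hm k)
        rw [← hx]
        exact h.mono (k + 1) (by linarith)
      filter_upwards [eventually_le_atBot (-L)] with s hs
      have h6 := (hmono hs).trans h4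
      have h7 := min_le_left (a / 2) (1 / 4)
      linarith
  · rw [tendsto_order]
    constructor
    · intro a ha
      have hε : 0 < min ((1 - a) / 2) (1 / 4) := lt_min (by linarith) (by norm_num)
      obtain ⟨L, hL, hL2⟩ := h3 (1 / 2) (1 - min ((1 - a) / 2) (1 / 4)) (by norm_num)
        (by linarith [min_le_right ((1 - a) / 2) (1 / 4 : ℝ)]) (by linarith)
      have h4 : 1 - min ((1 - a) / 2) (1 / 4) ≤ W L := by
        refine ge_of_tendsto' (hW L) fun k => ?_
        obtain ⟨x, hx⟩ := exists_level h k (c := 1 - min ((1 - a) / 2) (1 / 4))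
          (by linarith [min_le_right ((1 - a) / 2) (1 / 4 : ℝ)]) (by linarith)
        have h5 := hL2 k (m k) x (hm k) hx
        rw [← hx]
        exact h.mono (k + 1) (by linarith)
      filter_upwards [eventually_ge_atTop L] with s hs
      have h6 := h4.trans (hmono hs)
      have h7 := min_le_left ((1 - a) / 2) (1 / 4 : ℝ)
      linarith
    · intro a ha
      exact Eventually.of_forall fun s => lt_of_le_of_lt (hb s).2 ha

end Pool.Agent.R525.TW
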