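import Pool.Agent.R525.TW.Stm

/-!
# TW-ONE (MP_220de9_an): one sign change
-/

set_option autoImplicit false

open MeasureTheory Set Filter Topology

namespace Pool.Agent.R525.TW

namespace OneAux

lemma le_of_rderiv {g g' : ℝ → ℝ} {a b : ℝ} (hab : a ≤ b) (hc : Continuous g)
    (hd : ∀ x, HasDerivWithinAt g (g' x) (Ici x) x) (hn : ∀ x ∈ Ico a b, g' x ≤ 0) :
    g b ≤ g a := by
  have := image_le_of_deriv_right_le_deriv_boundary (f := g) (f' := g') (a := a) (b := b)
    hc.continuousOn (fun x _ => hd x) (B := fun _ => g a) (B' := fun _ => 0) le_rfl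
    continuousOn_const (fun x _ => hasDerivWithinAt_const _ _ _) hn
  exact this (right_mem_Icc.2 hab)

lemma ge_of_rderiv {g g' : ℝ → ℝ} {a b : ℝ} (hab : a ≤ b) (hc : Continuous g)
    (hd : ∀ x, HasDerivWithinAt g (g' x) (Ici x) x) (hn : ∀ x ∈ Ico a b, 0 ≤ g' x) :
    g a ≤ g b := by
  have := le_of_rderiv (g := fun x => - g x) (g' := fun x => - g' x) hab hc.neg
    (fun x => (hd x).neg) (fun x hx => by have := hn x hx; linarith)
  linarith

lemma F_int (h : BasP) (k : ℕ) (a b : ℝ) : IntervalIntegrable (F k) volume a b :=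
  (h.mono k).intervalIntegrable

lemma F_rcont (h : BasP) (k : ℕ) (t : ℝ) : ContinuousWithinAt (F k) (Ici t) t := by
  cases k with
  | zero =>
    by_cases ht : t < 0
    · have : (fun _ => (0:ℝ)) =ᶠ[𝓝 t] F 0 := by
        filter_upwards [Iio_mem_nhds ht] with x hx using (h.neg 0 x hx).symm
      exact (continuousAt_const.congr this).continuousWithinAt
    · have hF : ∀ x ∈ Ici t, F 0 x = 1 := by
        intro x hx
        simp only [F, phi]
        rw [if_neg]
        exact not_lt.2 (le_trans (not_lt.1 ht) hx)
      exact continuousWithinAt_const.congr hF (hF t self_mem_Ici)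
  | succ k => exact (h.cont k).continuousWithinAt

/-- integrating factor -/
noncomputable def E (k : ℕ) (t : ℝ) : ℝ := Real.exp (∫ u in (0:ℝ)..t, F k u)

lemma E_pos (k : ℕ) (t : ℝ) : 0 < E k t := Real.exp_pos _

lemma E_cont (h : BasP) (k : ℕ) : Continuous (E k) := by
  unfold E
  exact Real.continuous_exp.comp (intervalIntegral.continuous_primitive (fun a b => F_int h k a b) 0)

lemma E_rder (h : BasP) (k : ℕ) (t : ℝ) : HasDerivWithinAt (E k) (E k t * F k t) (Ici t) t := by
  have h1 : HasDerivWithinAt (fun u => ∫ x in (0:ℝ)..u, F k x) (F k t) (Ici t) t := by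
    refine intervalIntegral.integral_hasDerivWithinAt_right (F_int h k 0 t) (t := Ioi t) ?_ ?_
    · exact (h.mono k).measurable.stronglyMeasurable.stronglyMeasurableAtFilter
    · exact (F_rcont h k t).mono Ioi_subset_Ici_self
  exact h1.exp

lemma Fshift_rder (h : BasP) (k : ℕ) (a t : ℝ) :
    HasDerivWithinAt (fun t => F (k + 1) (t + a)) (F k (t + a) * (F k (t + a) - F (k + 1) (t + a)))
      (Ici t) t := by
  have h1 := h.rder k (t + a)
  have h2 : HasDerivWithinAt (fun x : ℝ => x + a) 1 (Ici t) t :=
    ((hasDerivAt_id t).add_const a).hasDerivWithinAt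
  have h3 := HasDerivWithinAt.scomp (h := fun x : ℝ => x + a) t h1 h2
    (fun x hx => by simp only [mem_Ici] at hx ⊢; linarith)
  simpa [Function.comp_def] using h3

end OneAux

open OneAux in
theorem oneP (h : BasP) : OneP := by
  intro k
  induction k with
  | zero =>
    intro a t1 t2 h12 H
    have h0 : 0 ≤ t1 := by
      by_contra hlt
      push Not at hlt
      rw [h.neg 0 t1 hlt] at H
      exact absurd (h.nonneg 1 (t1 + a)) (not_le.2 H)
    have h2 : F 0 t2 = 1 := by
      simp only [F, phi]
      rw [if_neg]
      linarith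
    rw [h2]
    exact h.le_one _ _
  | succ k ih =>
    intro a t1 t2 h12 H
    -- the function `w * E`
    set g : ℝ → ℝ := fun t => (F (k + 1) t - F (k + 1 + 1) (t + a)) * E k t with hg
    set g' : ℝ → ℝ := fun t => E k t * ((F k t - F (k + 1) (t + a)) *
      (F k t + F (k + 1) (t + a) - F (k + 1 + 1) (t + a))) with hg'
    have hgc : Continuous g := by
      refine Continuous.mul ?_ (E_cont h k)
      exact (h.cont k).sub ((h.cont (k + 1)).comp (continuous_id.add continuous_const))
    have hgd : ∀ t, HasDerivWithinAt g (g' t) (Ici t) t := by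
      intro t
      have h1 := ((h.rder k t).sub (Fshift_rder h (k + 1) a t)).mul (E_rder h k t)
      refine h1.congr_deriv ?_
      simp only [hg', Pi.sub_apply]
      ring
    have hfac : ∀ t, 0 ≤ F k t + F (k + 1) (t + a) - F (k + 1 + 1) (t + a) := by
      intro t
      have h1 := h.dec (k + 1) (t + a)
      have h2 := h.nonneg k t
      linarith
    have hex : ∃ t0, t0 ≤ t1 ∧ F (k + 1) (t0 + a) < F k t0 := by
      by_contra hcon
      push Not at hcon
      set T : ℝ := min t1 (min 0 (-a)) - 1 with hT
      have hT1 : T ≤ t1 := by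
        have := min_le_left t1 (min 0 (-a))
        linarith
      have hT2 : T < 0 := by
        have h1 := min_le_right t1 (min 0 (-a))
        have h2 := min_le_left 0 (-a)
        linarith
      have hT3 : T + a < 0 := by
        have h1 := min_le_right t1 (min 0 (-a))
        have h2 := min_le_right 0 (-a)
        linarith
      have h1 : g t1 ≤ g T := by
        refine le_of_rderiv hT1 hgc hgd ?_
        intro x hx
        have h2 := hcon x hx.2.le
        refine mul_nonpos_of_nonneg_of_nonpos (E_pos k x).le ?_
        exact mul_nonpos_of_nonpos_of_nonneg (by linarith) (hfac x)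
      have h2 : g T = 0 := by
        simp only [hg]
        rw [h.neg _ T hT2, h.neg _ (T + a) hT3]
        simp
      have h3 : 0 < g t1 := mul_pos (by linarith) (E_pos k t1)
      linarith
    obtain ⟨t0, ht0, hlt⟩ := hex
    have h1 : g t1 ≤ g t2 := by
      refine ge_of_rderiv h12.le hgc hgd ?_
      intro x hx
      refine mul_nonneg (E_pos k x).le ?_
      refine mul_nonneg ?_ (hfac x)
      rcases eq_or_lt_of_le (ht0.trans hx.1) with h2 | h2
      · rw [← h2]; linarith
      · have := ih a t0 x h2 hlt
        linarith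
    have h3 : 0 < g t1 := mul_pos (by linarith) (E_pos k t1)
    have h4 : 0 < g t2 := lt_of_lt_of_le h3 h1
    have h5 := (mul_pos_iff_of_pos_right (E_pos k t2)).1 h4
    linarith

end Pool.Agent.R525.TW
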