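import Pool.Agent.R525.TW.Stm

/-!
TW-POS: first properties of every wave profile.
-/

set_option autoImplicit false

open MeasureTheory Set Filter Topology

namespace Pool.Agent.R525.TW

namespace PosAux

lemma mono_of {f f' : ℝ → ℝ} (h : ∀ x, HasDerivAt f (f' x) x) (h0 : ∀ x, 0 ≤ f' x) :
    Monotone f :=
  monotone_of_deriv_nonneg (fun x => (h x).differentiableAt)
    (fun x => by rw [(h x).deriv]; exact h0 x)

lemma monoOn_of {f f' : ℝ → ℝ} {a : ℝ} (h : ∀ x, HasDerivAt f (f' x) x)
    (h0 : ∀ x, x ≤ a → 0 ≤ f' x) : MonotoneOn f (Iic a) := by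
  refine monotoneOn_of_deriv_nonneg (convex_Iic a)
    (fun x _ => (h x).continuousAt.continuousWithinAt)
    (fun x _ => (h x).differentiableAt.differentiableWithinAt) (fun x hx => ?_)
  rw [(h x).deriv]
  exact h0 x (mem_Iic.1 (interior_subset hx))

variable {τ : ℝ} {W : ℝ → ℝ}

lemma zero_step (h : IsProfile τ W) {a : ℝ} (ha : W a = 0) : W (a + τ) = 0 := by
  have h1 : HasDerivWithinAt W 0 (Iic a) a := by
    apply (hasDerivWithinAt_const a (Iic a) (0 : ℝ)).congr
    · intro x hx
      exact le_antisymm (ha ▸ h.mono hx) (h.bounds x).1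
    · exact ha
  have h2 := (h.eqn a).hasDerivWithinAt (s := Iic a)
  have h3 := (uniqueDiffWithinAt_Iic a).eq_deriv _ h2 h1
  rw [ha, sub_zero] at h3
  exact mul_self_eq_zero.1 h3

lemma pos (hτ : 0 < τ) (h : IsProfile τ W) (s : ℝ) : 0 < W s := by
  by_contra hs
  have h0 : W s = 0 := le_antisymm (not_lt.1 hs) (h.bounds s).1
  have h1 : ∀ n : ℕ, W (s + n * τ) = 0 := by
    intro n
    induction n with
    | zero => simpa using h0
    | succ n ih =>
      have := zero_step h ih
      rw [← this]
      congr 1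
      push_cast
      ring
  have h2 : ∀ᶠ x in atTop, (1 / 2 : ℝ) < W x := h.top.eventually (lt_mem_nhds (by norm_num))
  obtain ⟨N, hN⟩ := eventually_atTop.1 h2
  obtain ⟨n, hn⟩ := exists_nat_ge ((N - s) / τ)
  rw [div_le_iff₀ hτ] at hn
  have h3 := hN (s + n * τ) (by linarith)
  rw [h1 n] at h3
  linarith

lemma step_nonneg (hτ : 0 < τ) (h : IsProfile τ W) (s : ℝ) : 0 ≤ W (s + τ) - W s :=
  sub_nonneg.2 (h.mono (by linarith))

lemma lt_one (hτ : 0 < τ) (h : IsProfile τ W) (s : ℝ) : W s < 1 := by
  have hm : Monotone fun x => (1 - W x) * Real.exp x := by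
    refine mono_of (f' := fun x => (0 - W (x + τ) * (W (x + τ) - W x)) * Real.exp x +
      (1 - W x) * Real.exp x) (fun x => ?_) (fun x => ?_)
    · exact ((hasDerivAt_const x (1 : ℝ)).sub (h.eqn x)).mul (Real.hasDerivAt_exp x)
    · have h1 := step_nonneg hτ h x
      have h2 := h.bounds (x + τ)
      have h3 : W (x + τ) * (W (x + τ) - W x) ≤ 1 - W x := by nlinarith
      have h4 := Real.exp_pos x
      rw [← add_mul]
      exact mul_nonneg (by linarith) h4.le
  have h2 : ∀ᶠ x in atBot, W x < 1 := h.bot.eventually (gt_mem_nhds (by norm_num))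
  obtain ⟨N, hN⟩ := eventually_atBot.1 h2
  have h3 := hm (min_le_right N s)
  have h4 := hN (min N s) (min_le_left N s)
  have h5 : 0 < (1 - W (min N s)) * Real.exp (min N s) :=
    mul_pos (by linarith) (Real.exp_pos _)
  have h6 : 0 < (1 - W s) * Real.exp s := lt_of_lt_of_le h5 h3
  have h7 := (pos_iff_pos_of_mul_pos h6).2 (Real.exp_pos s)
  linarith

lemma one_lt (hτ : 0 < τ) (h : IsProfile τ W) : 1 < τ := by
  have hc : Continuous W := h.smooth.continuous
  set P : ℝ → ℝ := fun x => ∫ t in (0:ℝ)..x, W t with hP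
  have dP : ∀ x, HasDerivAt P (W x) x := fun x =>
    intervalIntegral.integral_hasDerivAt_right (hc.intervalIntegrable _ _)
      (hc.stronglyMeasurableAtFilter _ _) hc.continuousAt
  set H : ℝ → ℝ := fun x => P (x + τ) - P x with hH
  have dH : ∀ x, HasDerivAt H (W (x + τ) - W x) x := by
    intro x
    have h1 : HasDerivAt (fun x => P (x + τ)) (W (x + τ)) x := (dP (x + τ)).comp_add_const x τ
    exact h1.sub (dP x)
  have mP : Monotone P := mono_of dP fun x => (h.bounds x).1
  have mQ : Monotone fun x => x - P x :=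
    mono_of (f' := fun x => 1 - W x) (fun x => (hasDerivAt_id x).sub (dP x))
      fun x => by linarith [(h.bounds x).2]
  have H0 : ∀ x, 0 ≤ H x := fun x => by
    have := mP (show x ≤ x + τ by linarith)
    simp only [hH]; linarith
  have H1 : ∀ x, H x ≤ τ := fun x => by
    have := mQ (show x ≤ x + τ by linarith)
    simp only [hH]
    simp only at this
    linarith
  -- choose a
  have h2 : ∀ᶠ x in atBot, W x < 1 / 2 := h.bot.eventually (gt_mem_nhds (by norm_num))
  obtain ⟨N, hN⟩ := eventually_atBot.1 h2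
  set a : ℝ := N - τ with ha
  have m1 : Monotone fun x => H x - W x := by
    refine mono_of (f' := fun x => (W (x + τ) - W x) - W (x + τ) * (W (x + τ) - W x))
      (fun x => (dH x).sub (h.eqn x)) (fun x => ?_)
    have h1 := step_nonneg hτ h x
    have h2 := h.bounds (x + τ)
    nlinarith
  have m2 : MonotoneOn (fun x => H x - 2 * W x) (Iic a) := by
    refine monoOn_of (f' := fun x => (W (x + τ) - W x) - 2 * (W (x + τ) * (W (x + τ) - W x)))
      (fun x => (dH x).sub ((h.eqn x).const_mul 2)) (fun x hx => ?_)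
    have h1 := step_nonneg hτ h x
    have h2 := hN (x + τ) (by rw [ha] at hx; linarith)
    nlinarith
  have k1 : 0 ≤ H a - 2 * W a := by
    have k2 : ∀ᶠ y in atBot, 0 - 2 * W y ≤ H a - 2 * W a := by
      filter_upwards [eventually_le_atBot a] with y hy
      have := m2 (mem_Iic.2 hy) (mem_Iic.2 le_rfl) hy
      simp only at this
      linarith [H0 y]
    have k3 : Tendsto (fun y => 0 - 2 * W y) atBot (𝓝 (0 - 2 * 0)) :=
      tendsto_const_nhds.sub (h.bot.const_mul 2)
    have k4 := le_of_tendsto k3 k2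
    linarith
  have k5 : 1 ≤ τ - W a := by
    refine le_of_tendsto h.top ?_
    filter_upwards [eventually_ge_atTop a] with y hy
    have := m1 hy
    simp only at this
    linarith [H1 y]
  have k6 := pos hτ h a
  linarith

end PosAux

/-- TW-POS. -/
theorem posP : PosP := fun _ _ hτ h =>
  ⟨PosAux.one_lt hτ h, fun s => ⟨PosAux.pos hτ h s, PosAux.lt_one hτ h s⟩⟩

end Pool.Agent.R525.TW
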