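import Pool.Agent.R525.TW.Stm

set_option autoImplicit false

open MeasureTheory Set Filter Topology

namespace Pool.Agent.R525.TW

theorem steepP (h : BasP) (h1 : OneP) : SteepP := by
  intro k x y s hx hy he hs
  rcases hs.eq_or_lt with hs0 | hs0
  · rw [← hs0, add_zero, add_zero, sub_zero, sub_zero, he]
    exact ⟨le_rfl, le_rfl⟩
  have hcont : Continuous (F (k + 2)) := h.cont (k + 1)
  have hstr : StrictMonoOn (F (k + 2)) (Ici 0) := h.strict (k + 1)
  constructor
  · have key : ∀ a' : ℝ, a' < y - x → F (k + 2) (x + s + a') ≤ F (k + 1) (x + s) := by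
      intro a' ha'
      have h2 : F (k + 2) (x + a') < F (k + 1) x := by
        rw [he]
        rcases le_or_gt 0 (x + a') with h3 | h3
        · exact hstr h3 hy.le (by linarith)
        · rw [h.neg (k + 2) _ h3]
          exact h.pos (k + 2) y hy
      exact h1 (k + 1) a' x (x + s) (by linarith) h2
    have hc : Continuous fun a' : ℝ => F (k + 2) (x + s + a') := hcont.comp (by fun_prop)
    have ht : Tendsto (fun a' : ℝ => F (k + 2) (x + s + a')) (𝓝[<] (y - x))
        (𝓝 (F (k + 2) (x + s + (y - x)))) := (hc.tendsto (y - x)).mono_left nhdsWithin_le_nhds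
    have h3 : F (k + 2) (x + s + (y - x)) ≤ F (k + 1) (x + s) := by
      refine le_of_tendsto ht ?_
      filter_upwards [self_mem_nhdsWithin] with a' ha'
      exact key a' ha'
    have h4 : x + s + (y - x) = y + s := by ring
    rwa [h4] at h3
  · by_contra hlt
    rw [not_le] at hlt
    have hc : Continuous fun a' : ℝ => F (k + 2) (x - s + a') := hcont.comp (by fun_prop)
    have ht : Tendsto (fun a' : ℝ => F (k + 2) (x - s + a')) (𝓝[>] (y - x))
        (𝓝 (F (k + 2) (x - s + (y - x)))) := (hc.tendsto (y - x)).mono_left nhdsWithin_le_nhds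
    have h4 : x - s + (y - x) = y - s := by ring
    rw [h4] at ht
    have h5 : ∀ᶠ a' : ℝ in 𝓝[>] (y - x), F (k + 2) (x - s + a') < F (k + 1) (x - s) :=
      ht.eventually (gt_mem_nhds hlt)
    obtain ⟨a', ha', ha⟩ := (h5.and self_mem_nhdsWithin).exists
    have ha2 : y - x < a' := ha
    have h6 := h1 (k + 1) a' (x - s) x (by linarith) ha'
    rw [he] at h6
    have h7 : F (k + 2) y < F (k + 2) (x + a') :=
      hstr hy.le (show (0 : ℝ) ≤ x + a' by linarith) (by linarith)
    exact absurd h6 (not_le.2 h7)

end Pool.Agent.R525.TW
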