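import Pool.Agent.R525.TW.Stm

set_option autoImplicit false

open MeasureTheory Set Filter Topology

namespace Pool.Agent.R525.TW

namespace Tail0lAux

/-- One step: `κ W(s+h)^2 ≤ W s` with `h = τ/2`, `κ = h/(1+h)`. -/
theorem step {τ : ℝ} {W : ℝ → ℝ} (hτ : 0 < τ) (hW : IsProfile τ W) (s : ℝ) :
    (τ / 2) / (1 + τ / 2) * W (s + τ / 2) ^ 2 ≤ W s := by
  set h : ℝ := τ / 2 with hh
  have hpos : 0 < h := by rw [hh]; linarith
  have hlt : s - h < s := by linarith
  obtain ⟨u, ⟨hu1, hu2⟩, hu⟩ := exists_hasDerivAt_eq_slope W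
    (fun u => W (u + τ) * (W (u + τ) - W u)) hlt
    (hW.smooth.continuous.continuousOn) (fun x _ => hW.eqn x)
  have hden : s - (s - h) = h := by ring
  rw [hden, eq_div_iff hpos.ne'] at hu
  have h1 : W (s + h) ≤ W (u + τ) := hW.mono (by rw [hh] at hu1 ⊢; linarith)
  have h2 : W u ≤ W s := hW.mono hu2.le
  have h3 : W s ≤ W (s + h) := hW.mono (by linarith)
  have h4 := hW.bounds (s - h)
  have h5 := hW.bounds (s + h)
  have h6 := hW.bounds s
  have h7 : W (s + h) * (W (s + h) - W s) ≤ W (u + τ) * (W (u + τ) - W u) :=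
    mul_le_mul h1 (by linarith) (by linarith) (le_trans h5.1 h1)
  have h8 : W (s + h) * (W (s + h) - W s) * h ≤ W s := by
    have := mul_le_mul_of_nonneg_right h7 hpos.le
    linarith [h4.1]
  rw [div_mul_eq_mul_div, div_le_iff₀ (by linarith)]
  have h9 : W s * W (s + h) ≤ W s := by nlinarith [h5.2, h6.1]
  nlinarith [mul_le_mul_of_nonneg_left h9 hpos.le]

/-- Iteration. -/
theorem iter {h κ : ℝ} {W : ℝ → ℝ} (hκ : 0 ≤ κ) (hWn : ∀ s, 0 ≤ W s)
    (hs : ∀ s, κ * W (s + h) ^ 2 ≤ W s) (n : ℕ) :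
    (κ * W 0) ^ (2 ^ n) ≤ κ * W (-(n * h)) := by
  induction n with
  | zero => simp
  | succ n ih =>
    have h0 : 0 ≤ κ * W 0 := mul_nonneg hκ (hWn 0)
    have h1 := hs (-(((n + 1 : ℕ) : ℝ) * h))
    have h2 : -(((n + 1 : ℕ) : ℝ) * h) + h = -(n * h) := by push_cast; ring
    rw [h2] at h1
    calc (κ * W 0) ^ (2 ^ (n + 1)) = ((κ * W 0) ^ (2 ^ n)) ^ 2 := by
          rw [pow_succ, pow_mul]
      _ ≤ (κ * W (-(n * h))) ^ 2 := by
          exact pow_le_pow_left₀ (pow_nonneg h0 _) ih 2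
      _ = κ * (κ * W (-(n * h)) ^ 2) := by ring
      _ ≤ κ * W (-(((n + 1 : ℕ) : ℝ) * h)) := mul_le_mul_of_nonneg_left h1 hκ

end Tail0lAux

open Tail0lAux in
/-- TW-TAIL0L. -/
theorem tail0lP (h : PosP) : Tail0lP := by
  intro τ W hτ hW
  obtain ⟨-, hb⟩ := h τ W hτ hW
  set k : ℝ := τ / 2 with hk
  have kpos : 0 < k := by rw [hk]; linarith
  set κ : ℝ := k / (1 + k) with hκ
  have κpos : 0 < κ := by rw [hκ]; positivity
  have κlt : κ < 1 := by rw [hκ, div_lt_one (by linarith)]; linarith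
  have hWn : ∀ s, 0 ≤ W s := fun s => (hW.bounds s).1
  have hs : ∀ s, κ * W (s + k) ^ 2 ≤ W s := fun s => step hτ hW s
  set q : ℝ := κ * W 0 with hq
  have qpos : 0 < q := mul_pos κpos (hb 0).1
  have qlt : q < 1 := by
    have := (hb 0).2
    have h0 := (hb 0).1
    rw [hq]; nlinarith
  have hlog : Real.log q < 0 := Real.log_neg qpos qlt
  refine ⟨max 1 (-2 * Real.log q), le_max_left _ _, ?_⟩
  intro r hr
  set n : ℕ := ⌈r / k⌉₊ with hn
  have hn1 : r / k ≤ n := Nat.le_ceil _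
  have hn2 : (n : ℝ) < r / k + 1 := Nat.ceil_lt_add_one (by positivity)
  have hn3 : r ≤ n * k := by rwa [div_le_iff₀ kpos] at hn1
  have h1 : W (-(n * k)) ≤ W (-r) := hW.mono (by linarith)
  have h2 : κ * W (-(n * k)) ≤ W (-(n * k)) := by
    have := hWn (-(n * k)); nlinarith
  have h3 := iter κpos.le hWn hs n
  rw [← hq] at h3
  have h4 : q ^ (2 ^ n) = Real.exp (2 ^ n * Real.log q) := by
    rw [mul_comm, Real.exp_mul, Real.exp_log qpos]
    rw [← Real.rpow_natCast]; push_cast; rfl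
  have h5 : (2 : ℝ) ^ n ≤ 2 * Real.exp (2 * Real.log 2 / τ * r) := by
    have e1 : (2 : ℝ) ^ n = Real.exp (Real.log 2 * n) := by
      rw [Real.exp_mul, Real.exp_log (by norm_num), Real.rpow_natCast]
    have e2 : 2 * Real.exp (2 * Real.log 2 / τ * r)
        = Real.exp (Real.log 2 * (r / k + 1)) := by
      have : Real.log 2 * (r / k + 1) = Real.log 2 + 2 * Real.log 2 / τ * r := by
        rw [hk]; field_simp; ring
      rw [this, Real.exp_add, Real.exp_log (by norm_num)]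
    rw [e1, e2]
    apply Real.exp_le_exp.mpr
    exact mul_le_mul_of_nonneg_left hn2.le (Real.log_nonneg (by norm_num))
  have h6 : Real.exp (-(max 1 (-2 * Real.log q) * Real.exp (2 * Real.log 2 / τ * r)))
      ≤ Real.exp (2 ^ n * Real.log q) := by
    apply Real.exp_le_exp.mpr
    have e3 : 0 < Real.exp (2 * Real.log 2 / τ * r) := Real.exp_pos _
    have e4 : (2:ℝ) ^ n * (-Real.log q) ≤ 2 * Real.exp (2 * Real.log 2 / τ * r) * (-Real.log q) :=
      mul_le_mul_of_nonneg_right h5 (by linarith)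
    have e5 : (-2 * Real.log q) * Real.exp (2 * Real.log 2 / τ * r)
        ≤ max 1 (-2 * Real.log q) * Real.exp (2 * Real.log 2 / τ * r) :=
      mul_le_mul_of_nonneg_right (le_max_right _ _) e3.le
    nlinarith
  calc _ ≤ Real.exp (2 ^ n * Real.log q) := h6
    _ = q ^ (2 ^ n) := h4.symm
    _ ≤ κ * W (-(n * k)) := h3
    _ ≤ W (-(n * k)) := h2
    _ ≤ W (-r) := h1

end Pool.Agent.R525.TW
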