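import Pool.Agent.R525.TW.Stm

/-!
# TW-TAIL0U: double exponential upper bound at `-∞`
-/

set_option autoImplicit false

open MeasureTheory Set Filter Topology

namespace Pool.Agent.R525.TW

namespace Tail0uAux

/-- the window integral -/
noncomputable def H (τ : ℝ) (W : ℝ → ℝ) (u : ℝ) : ℝ := ∫ x in u..(u + τ), W x

theorem H_deriv {τ : ℝ} {W : ℝ → ℝ} (hW : Continuous W) (u : ℝ) :
    HasDerivAt (H τ W) (W (u + τ) - W u) u := by
  have hP : ∀ x, HasDerivAt (fun y => ∫ z in (0:ℝ)..y, W z) (W x) x := fun x =>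
    intervalIntegral.integral_hasDerivAt_right (hW.intervalIntegrable _ _)
      (hW.stronglyMeasurableAtFilter _ _) hW.continuousAt
  have h1 : H τ W = fun u => (∫ z in (0:ℝ)..(u + τ), W z) - ∫ z in (0:ℝ)..u, W z := by
    funext u
    unfold H
    rw [intervalIntegral.integral_interval_sub_left (hW.intervalIntegrable _ _)
      (hW.intervalIntegrable _ _)]
  rw [h1]
  exact ((hP (u + τ)).comp_add_const u τ).sub (hP u)

theorem H_nonneg {τ : ℝ} {W : ℝ → ℝ} (hτ : 0 ≤ τ) (h0 : ∀ s, 0 ≤ W s) (u : ℝ) : 0 ≤ H τ W u :=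
  intervalIntegral.integral_nonneg (by linarith) fun x _ => h0 x

theorem H_le {τ : ℝ} {W : ℝ → ℝ} (hτ : 0 ≤ τ) (hW : Continuous W) (hm : Monotone W) (u : ℝ) :
    H τ W u ≤ τ * W (u + τ) := by
  unfold H
  calc ∫ x in u..(u + τ), W x ≤ ∫ _ in u..(u + τ), W (u + τ) := by
        refine intervalIntegral.integral_mono_on (by linarith) (hW.intervalIntegrable _ _)
          (continuous_const.intervalIntegrable _ _) fun x hx => hm hx.2
    _ = τ * W (u + τ) := by
        rw [intervalIntegral.integral_const, smul_eq_mul]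
        ring

theorem key {τ : ℝ} {W : ℝ → ℝ} (hτ : 0 < τ) (hW : IsProfile τ W) (s : ℝ) :
    W s ≤ τ * W (s + τ) ^ 2 := by
  have hc : Continuous W := hW.smooth.continuous
  have hm := hW.mono
  have h0 : ∀ s, 0 ≤ W s := fun s => (hW.bounds s).1
  set Φ : ℝ → ℝ := fun u => W (s + τ) * H τ W u - W u with hΦ
  have hd : ∀ u, HasDerivAt Φ (W (s + τ) * (W (u + τ) - W u) - W (u + τ) * (W (u + τ) - W u)) u :=
    fun u => ((H_deriv hc u).const_mul _).sub (hW.eqn u)
  have hmono : MonotoneOn Φ (Iic s) := by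
    refine monotoneOn_of_deriv_nonneg (convex_Iic s)
      (fun u _ => (hd u).continuousAt.continuousWithinAt)
      (fun u _ => (hd u).differentiableAt.differentiableWithinAt) fun u hu => ?_
    rw [interior_Iic] at hu
    rw [(hd u).deriv, ← sub_mul]
    have h1 : W (u + τ) ≤ W (s + τ) := hm (by linarith [mem_Iio.1 hu])
    have h2 : W u ≤ W (u + τ) := hm (by linarith)
    exact mul_nonneg (by linarith) (by linarith)
  have hWt : Tendsto (fun u => τ * W (u + τ)) atBot (𝓝 0) := by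
    have := (hW.bot.comp (tendsto_atBot_add_const_right atBot τ tendsto_id)).const_mul τ
    rw [mul_zero] at this
    exact this
  have hHt : Tendsto (H τ W) atBot (𝓝 0) :=
    tendsto_of_tendsto_of_tendsto_of_le_of_le tendsto_const_nhds hWt
      (fun u => H_nonneg hτ.le h0 u) (fun u => H_le hτ.le hc hm u)
  have hΦt : Tendsto Φ atBot (𝓝 0) := by
    have := (hHt.const_mul (W (s + τ))).sub hW.bot
    rw [mul_zero, sub_zero] at this
    exact this
  have h3 : 0 ≤ Φ s := by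
    refine le_of_tendsto hΦt ?_
    filter_upwards [eventually_le_atBot s] with u hu
    exact hmono hu self_mem_Iic hu
  have h4 : W s ≤ W (s + τ) * H τ W s := by
    have : 0 ≤ W (s + τ) * H τ W s - W s := h3
    linarith
  have h5 : W (s + τ) * H τ W s ≤ W (s + τ) * (τ * W (s + τ)) :=
    mul_le_mul_of_nonneg_left (H_le hτ.le hc hm s) (h0 _)
  calc W s ≤ W (s + τ) * (τ * W (s + τ)) := h4.trans h5
    _ = τ * W (s + τ) ^ 2 := by ring

theorem iter {τ : ℝ} {W : ℝ → ℝ} (hτ : 0 < τ) (hW : IsProfile τ W) (s0 : ℝ)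
    (h : τ * W s0 ≤ Real.exp (-1)) (n : ℕ) :
    τ * W (s0 - n * τ) ≤ Real.exp (-(2 : ℝ) ^ n) := by
  induction n with
  | zero => simpa using h
  | succ n ih =>
    have h1 := key hτ hW (s0 - ((n + 1 : ℕ) : ℝ) * τ)
    have h2 : s0 - ((n + 1 : ℕ) : ℝ) * τ + τ = s0 - n * τ := by push_cast; ring
    rw [h2] at h1
    have h3 : 0 ≤ τ * W (s0 - n * τ) := mul_nonneg hτ.le (hW.bounds _).1
    calc τ * W (s0 - ((n + 1 : ℕ) : ℝ) * τ) ≤ τ * (τ * W (s0 - n * τ) ^ 2) :=
          mul_le_mul_of_nonneg_left h1 hτ.le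
      _ = (τ * W (s0 - n * τ)) ^ 2 := by ring
      _ ≤ (Real.exp (-(2 : ℝ) ^ n)) ^ 2 := pow_le_pow_left₀ h3 ih 2
      _ = Real.exp (-(2 : ℝ) ^ (n + 1)) := by
          rw [← Real.exp_nat_mul]
          congr 1
          push_cast
          ring

end Tail0uAux

open Tail0uAux in
theorem tail0uP (h : PosP) : Tail0uP := by
  intro τ W hτ hW
  obtain ⟨hτ1, hpos⟩ := h τ W hτ hW
  obtain ⟨s0, hs0, hs0'⟩ : ∃ s0 : ℝ, s0 ≤ 0 ∧ τ * W s0 ≤ Real.exp (-1) := by
    have h1 : ∀ᶠ s in atBot, W s < Real.exp (-1) / τ :=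
      hW.bot.eventually (gt_mem_nhds (by positivity))
    obtain ⟨s0, h2, h3⟩ := (h1.and (eventually_le_atBot (0:ℝ))).exists
    refine ⟨s0, h3, ?_⟩
    rw [lt_div_iff₀ hτ] at h2
    linarith
  set a : ℝ := Real.log 2 / τ with ha
  have hlog2 : 0 < Real.log 2 := Real.log_pos (by norm_num)
  have ha0 : 0 < a := div_pos hlog2 hτ
  set w0 : ℝ := W 0 with hw0
  have hl0 : 0 < -Real.log w0 := by
    have := Real.log_neg (hpos 0).1 (hpos 0).2
    linarith
  set C : ℝ := max 1 (max (2 * Real.exp (-(a * s0))) (Real.exp (-(a * s0)) / (-Real.log w0))) with hC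
  have hC1 : 1 ≤ C := le_max_left _ _
  have hC0 : 0 < C := by linarith
  have hC2 : 2 * Real.exp (-(a * s0)) ≤ C := (le_max_left _ _).trans (le_max_right _ _)
  have hC3 : Real.exp (-(a * s0)) / (-Real.log w0) ≤ C :=
    (le_max_right _ _).trans (le_max_right _ _)
  refine ⟨C, hC1, fun r hr => ?_⟩
  rcases le_or_gt (-s0) r with hrs | hrs
  · set n : ℕ := ⌊(r + s0) / τ⌋₊ with hn
    have hq : 0 ≤ (r + s0) / τ := div_nonneg (by linarith) hτ.le
    have hn1 : (n : ℝ) ≤ (r + s0) / τ := Nat.floor_le hq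
    have hn2 : (r + s0) / τ < n + 1 := Nat.lt_floor_add_one _
    have hn3 : (n : ℝ) * τ ≤ r + s0 := by rwa [le_div_iff₀ hτ] at hn1
    have h2n : Real.exp (a * s0) * Real.exp (a * r) / 2 ≤ (2 : ℝ) ^ n := by
      have e1 : Real.exp (a * s0) * Real.exp (a * r) = Real.exp (Real.log 2 * ((r + s0) / τ)) := by
        rw [← Real.exp_add]
        congr 1
        rw [ha]
        ring
      have e2 : Real.exp (Real.log 2 * ((r + s0) / τ)) ≤ Real.exp (Real.log 2 * (n + 1)) :=
        Real.exp_le_exp.2 (mul_le_mul_of_nonneg_left hn2.le hlog2.le)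
      have e3 : Real.exp (Real.log 2 * (n + 1)) = (2:ℝ) ^ (n + 1) := by
        rw [mul_comm, show ((n : ℝ) + 1) = ((n + 1 : ℕ) : ℝ) by push_cast; ring, Real.exp_nat_mul,
          Real.exp_log (by norm_num)]
      rw [e1]
      rw [e3, pow_succ] at e2
      linarith
    have hC4 : C⁻¹ ≤ Real.exp (a * s0) / 2 := by
      rw [inv_le_comm₀ hC0 (by positivity)]
      calc (Real.exp (a * s0) / 2)⁻¹ = 2 * Real.exp (-(a * s0)) := by
            rw [Real.exp_neg, inv_div, div_eq_mul_inv]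
        _ ≤ C := hC2
    have hfin : C⁻¹ * Real.exp (a * r) ≤ (2 : ℝ) ^ n := by
      calc C⁻¹ * Real.exp (a * r) ≤ Real.exp (a * s0) / 2 * Real.exp (a * r) :=
            mul_le_mul_of_nonneg_right hC4 (Real.exp_pos _).le
        _ = Real.exp (a * s0) * Real.exp (a * r) / 2 := by ring
        _ ≤ _ := h2n
    calc W (-r) ≤ W (s0 - n * τ) := hW.mono (by linarith)
      _ ≤ τ * W (s0 - n * τ) := by
          nlinarith [(hpos (s0 - n * τ)).1]
      _ ≤ Real.exp (-(2 : ℝ) ^ n) := iter hτ hW s0 hs0' n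
      _ ≤ Real.exp (-(C⁻¹ * Real.exp (a * r))) := Real.exp_le_exp.2 (by linarith)
  · have h1 : W (-r) ≤ w0 := hW.mono (by linarith)
    have h2 : Real.exp (a * r) ≤ Real.exp (-(a * s0)) := by
      refine Real.exp_le_exp.2 ?_
      nlinarith
    have h3 : C⁻¹ * Real.exp (a * r) ≤ -Real.log w0 := by
      rw [inv_mul_le_iff₀ hC0]
      rw [div_le_iff₀ hl0] at hC3
      linarith
    calc W (-r) ≤ w0 := h1
      _ = Real.exp (Real.log w0) := (Real.exp_log (hpos 0).1).symm
      _ ≤ Real.exp (-(C⁻¹ * Real.exp (a * r))) := Real.exp_le_exp.2 (by linarith)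

end Pool.Agent.R525.TW
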