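import Pool.Agent.R525.TW.Stm

set_option autoImplicit false

open MeasureTheory Set Filter Topology

namespace Pool.Agent.R525.TW

namespace Tail1Aux

variable {τ : ℝ} {W : ℝ → ℝ}

theorem lower (hτ : 0 < τ) (hW : IsProfile τ W) {s : ℝ} (hs : 0 ≤ s) :
    (1 - W 0) * Real.exp (-s) ≤ 1 - W s := by
  have hder : ∀ x, HasDerivAt (fun x => (1 - W x) * Real.exp x)
      (-(W (x + τ) * (W (x + τ) - W x)) * Real.exp x + (1 - W x) * Real.exp x) x := by
    intro x
    exact ((hW.eqn x).const_sub 1).mul (Real.hasDerivAt_exp x)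
  have hmono : Monotone fun x => (1 - W x) * Real.exp x := by
    refine monotone_of_deriv_nonneg (fun x => (hder x).differentiableAt) fun x => ?_
    rw [(hder x).deriv]
    have h1 := hW.bounds (x + τ)
    have h2 : W x ≤ W (x + τ) := hW.mono (by linarith)
    have h3 : W (x + τ) * (W (x + τ) - W x) ≤ 1 - W x := by nlinarith
    have h4 := Real.exp_pos x
    nlinarith
  have h5 := hmono hs
  simp only [Real.exp_zero, mul_one] at h5
  rw [Real.exp_neg, ← div_eq_mul_inv, div_le_iff₀ (Real.exp_pos s)]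
  exact h5

theorem main_ineq (hτ : 0 < τ) (hW : IsProfile τ W) (s : ℝ) :
    W (s + τ) * (τ * (1 - W (s + τ))) ≤ 1 - W s := by
  have hWc : Continuous W := hW.smooth.continuous
  have hVc : Continuous fun x => 1 - W x := continuous_const.sub hWc
  set G : ℝ → ℝ := fun x => ∫ u in (0 : ℝ)..x, (1 - W u) with hG
  have hGd : ∀ x, HasDerivAt G (1 - W x) x := fun x =>
    intervalIntegral.integral_hasDerivAt_right (hVc.intervalIntegrable _ _)
      hVc.aestronglyMeasurable.stronglyMeasurableAtFilter hVc.continuousAt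
  have hGτ : ∀ x, HasDerivAt (fun x => G (x + τ)) (1 - W (x + τ)) x := fun x =>
    (hGd (x + τ)).comp_add_const x τ
  have hGe : ∀ x, G (x + τ) - G x = ∫ u in x..(x + τ), (1 - W u) := fun x =>
    intervalIntegral.integral_interval_sub_left (hVc.intervalIntegrable _ _)
      (hVc.intervalIntegrable _ _)
  have hGl : ∀ x, τ * (1 - W (x + τ)) ≤ G (x + τ) - G x := by
    intro x
    rw [hGe]
    have h1 : ∫ _u in x..(x + τ), (1 - W (x + τ)) = τ * (1 - W (x + τ)) := by
      rw [intervalIntegral.integral_const, smul_eq_mul]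
      ring
    rw [← h1]
    refine intervalIntegral.integral_mono_on (by linarith) (by simp)
      (hVc.intervalIntegrable _ _) fun u hu => ?_
    have := hW.mono hu.2
    linarith
  have hGu : ∀ x, G (x + τ) - G x ≤ τ * (1 - W x) := by
    intro x
    rw [hGe]
    have h1 : ∫ _u in x..(x + τ), (1 - W x) = τ * (1 - W x) := by
      rw [intervalIntegral.integral_const, smul_eq_mul]
      ring
    rw [← h1]
    refine intervalIntegral.integral_mono_on (by linarith) (hVc.intervalIntegrable _ _)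
      (by simp) fun u hu => ?_
    have := hW.mono hu.1
    linarith
  have hH : ∀ x, HasDerivAt (fun x => W x - W (s + τ) * (G x - G (x + τ)))
      (W (x + τ) * (W (x + τ) - W x) - W (s + τ) * ((1 - W x) - (1 - W (x + τ)))) x := fun x =>
    (hW.eqn x).sub (((hGd x).sub (hGτ x)).const_mul _)
  have hmono : MonotoneOn (fun x => W x - W (s + τ) * (G x - G (x + τ))) (Ici s) := by
    refine monotoneOn_of_deriv_nonneg (convex_Ici s)
      (fun x _ => (hH x).continuousAt.continuousWithinAt)
      (fun x _ => (hH x).differentiableAt.differentiableWithinAt) fun x hx => ?_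
    rw [interior_Ici] at hx
    rw [(hH x).deriv]
    have h1 : W (s + τ) ≤ W (x + τ) := hW.mono (by linarith [mem_Ioi.1 hx])
    have h2 : W x ≤ W (x + τ) := hW.mono (by linarith)
    nlinarith [mul_nonneg (sub_nonneg.2 h1) (sub_nonneg.2 h2)]
  have hM : ∀ M, s ≤ M → W (s + τ) * (τ * (1 - W (s + τ)) - τ * (1 - W M)) ≤ W M - W s := by
    intro M hM
    have h1 := hmono (mem_Ici.2 le_rfl) (mem_Ici.2 hM) hM
    simp only at h1
    have h2 := hGl s
    have h3 := hGu M
    have h4 := (hW.bounds (s + τ)).1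
    nlinarith [mul_nonneg h4 (sub_nonneg.2 h2), mul_nonneg h4 (sub_nonneg.2 h3)]
  have hl1 : Tendsto (fun M => W (s + τ) * (τ * (1 - W (s + τ)) - τ * (1 - W M))) atTop
      (𝓝 (W (s + τ) * (τ * (1 - W (s + τ)) - τ * (1 - 1)))) :=
    ((((hW.top.const_sub 1).const_mul τ).const_sub _).const_mul _)
  have hl2 : Tendsto (fun M => W M - W s) atTop (𝓝 (1 - W s)) := hW.top.sub_const _
  have h5 := le_of_tendsto_of_tendsto hl1 hl2 (by
    filter_upwards [eventually_ge_atTop s] with M hMs
    exact hM M hMs)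
  rw [sub_self, mul_zero, sub_zero] at h5
  exact h5

end Tail1Aux

open Tail1Aux in
theorem tail1P (h : PosP) : Tail1P := by
  intro τ W hτ hW
  obtain ⟨hτ1, hpos⟩ := h τ W hτ hW
  set ρ : ℝ := (1 + τ) / 2 with hρ
  have hρ1 : 1 < ρ := by rw [hρ]; linarith
  have hρτ : ρ < τ := by rw [hρ]; linarith
  have hρ0 : 0 < ρ := by linarith
  have hlog : 0 < Real.log ρ := Real.log_pos hρ1
  -- the point `s0`
  obtain ⟨s0, hs0, hs0'⟩ : ∃ s0 : ℝ, 0 ≤ s0 ∧ ρ ≤ W (s0 + τ) * τ := by
    have h1 : Tendsto (fun s => W (s + τ) * τ) atTop (𝓝 (1 * τ)) :=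
      (hW.top.comp (tendsto_atTop_add_const_right _ τ tendsto_id)).mul_const τ
    rw [one_mul] at h1
    obtain ⟨s0, h2, h3⟩ := ((h1.eventually (lt_mem_nhds hρτ)).and (eventually_ge_atTop 0)).exists
    exact ⟨s0, h3, h2.le⟩
  have hstep : ∀ s, s0 ≤ s → ρ * (1 - W (s + τ)) ≤ 1 - W s := by
    intro s hs
    refine le_trans ?_ (main_ineq hτ hW s)
    have h1 : W (s0 + τ) ≤ W (s + τ) := hW.mono (by linarith)
    have h2 : 0 ≤ 1 - W (s + τ) := by linarith [(hW.bounds (s + τ)).2]
    have h3 : ρ ≤ W (s + τ) * τ := hs0'.trans (mul_le_mul_of_nonneg_right h1 hτ.le)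
    nlinarith
  have hiter : ∀ n : ℕ, (1 - W (s0 + n * τ)) * ρ ^ n ≤ 1 := by
    intro n
    induction n with
    | zero =>
      simp only [Nat.cast_zero, zero_mul, add_zero, pow_zero, mul_one]
      linarith [(hW.bounds s0).1]
    | succ n ih =>
      have h1 := hstep (s0 + n * τ) (by nlinarith [(Nat.cast_nonneg n : (0 : ℝ) ≤ n)])
      have e1 : s0 + ((n + 1 : ℕ) : ℝ) * τ = s0 + n * τ + τ := by push_cast; ring
      rw [e1, pow_succ]
      have h2 : 0 < ρ ^ n := by positivity
      calc (1 - W (s0 + n * τ + τ)) * (ρ ^ n * ρ)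
          = ρ * (1 - W (s0 + n * τ + τ)) * ρ ^ n := by ring
        _ ≤ (1 - W (s0 + n * τ)) * ρ ^ n := mul_le_mul_of_nonneg_right h1 h2.le
        _ ≤ 1 := ih
  set a : ℝ := Real.log ρ / τ with ha
  have ha0 : 0 < a := div_pos hlog hτ
  have hupper : ∀ r : ℝ, 0 ≤ r → 1 - W r ≤ ρ * Real.exp (a * s0) * Real.exp (-(a * r)) := by
    intro r hr
    rcases lt_or_ge r s0 with hlt | hge
    · have h1 : 1 - W r ≤ 1 := by linarith [(hW.bounds r).1]
      have h2 : 1 ≤ Real.exp (a * s0) * Real.exp (-(a * r)) := by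
        rw [← Real.exp_add]
        refine Real.one_le_exp ?_
        nlinarith
      calc 1 - W r ≤ 1 := h1
        _ ≤ ρ * (Real.exp (a * s0) * Real.exp (-(a * r))) := by nlinarith
        _ = _ := by ring
    · set n : ℕ := ⌊(r - s0) / τ⌋₊ with hn
      have h0 : 0 ≤ (r - s0) / τ := div_nonneg (by linarith) hτ.le
      have h1 : (n : ℝ) ≤ (r - s0) / τ := Nat.floor_le h0
      have h2 : (r - s0) / τ < n + 1 := Nat.lt_floor_add_one _
      have h3 : s0 + n * τ ≤ r := by
        rw [le_div_iff₀ hτ] at h1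
        linarith
      have h4 : 1 - W r ≤ 1 - W (s0 + n * τ) := by linarith [hW.mono h3]
      have h5 := hiter n
      have hρn : ρ ^ n = Real.exp (n * Real.log ρ) := by
        rw [Real.exp_nat_mul, Real.exp_log hρ0]
      have h6 : 1 - W (s0 + n * τ) ≤ Real.exp (-(n * Real.log ρ)) := by
        rw [Real.exp_neg, ← one_div, le_div_iff₀ (Real.exp_pos _), ← hρn]
        exact h5
      refine (h4.trans h6).trans ?_
      have h7 : ρ * Real.exp (a * s0) * Real.exp (-(a * r)) =
          Real.exp (Real.log ρ + a * s0 + -(a * r)) := by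
        rw [Real.exp_add, Real.exp_add, Real.exp_log hρ0]
      rw [h7]
      refine Real.exp_le_exp.2 ?_
      have h8 : a * (r - s0) = Real.log ρ * ((r - s0) / τ) := by
        rw [ha]
        ring
      nlinarith
  have hV0 : 0 < 1 - W 0 := by linarith [(hpos 0).2]
  have hbig : 1 ≤ ρ * Real.exp (a * s0) := by
    have : 1 ≤ Real.exp (a * s0) := Real.one_le_exp (by positivity)
    nlinarith
  refine ⟨a, max 1 a, max (ρ * Real.exp (a * s0)) (1 - W 0)⁻¹, ha0, le_max_right _ _,
    hbig.trans (le_max_left _ _), fun r hr => ⟨?_, ?_⟩⟩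
  · refine le_trans ?_ (lower hτ hW hr)
    have h1 : (max (ρ * Real.exp (a * s0)) (1 - W 0)⁻¹)⁻¹ ≤ 1 - W 0 := by
      rw [inv_le_comm₀ (by positivity) hV0]
      exact le_max_right _ _
    have h2 : Real.exp (-(max 1 a * r)) ≤ Real.exp (-r) := by
      refine Real.exp_le_exp.2 ?_
      have := mul_le_mul_of_nonneg_right (le_max_left 1 a) hr
      linarith
    exact mul_le_mul h1 h2 (Real.exp_pos _).le hV0.le
  · refine (hupper r hr).trans ?_
    exact mul_le_mul_of_nonneg_right (le_max_left _ _) (Real.exp_pos _).le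

end Pool.Agent.R525.TW
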