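import Pool.Agent.R525.TW.Stm

/-! TW-TAU (helper164). -/

set_option autoImplicit false

open MeasureTheory Set Filter Topology

namespace Pool.Agent.R525.TW

namespace TauAux

theorem no_period {m : ℕ → ℝ} {W : ℝ → ℝ} (hL : Lim m W) (P : ℝ) (hP : 0 < P)
    (hper : ∀ u, W (u + P) = W u) : False := by
  have h1 : ∀ u, ∀ n : ℕ, W (u + n * P) = W u := by
    intro u n
    induction n with
    | zero => simp
    | succ n ih =>
      have e : u + ((n + 1 : ℕ) : ℝ) * P = (u + n * P) + P := by push_cast; ring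
      rw [e, hper, ih]
  have h2 : ∀ u, W u = 1 := by
    intro u
    have h3 : Tendsto (fun n : ℕ => u + (n : ℝ) * P) atTop atTop := by
      apply tendsto_atTop_add_const_left
      exact tendsto_natCast_atTop_atTop.atTop_mul_const hP
    have h4 := hL.top.comp h3
    have h5 : Tendsto (fun _ : ℕ => W u) atTop (𝓝 1) := by
      refine h4.congr fun n => ?_
      exact h1 u n
    exact tendsto_nhds_unique tendsto_const_nhds h5
  have h6 : Tendsto (fun _ : ℝ => (1 : ℝ)) atBot (𝓝 0) := by
    refine hL.bot.congr fun s => h2 s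
  have h7 := tendsto_nhds_unique h6 tendsto_const_nhds
  norm_num at h7

theorem uniq (h : EqnP) {m : ℕ → ℝ} {W : ℝ → ℝ} (hL : Lim m W) (j1 j2 : ℕ → ℕ) (τ1 τ2 : ℝ)
    (h1 : Tendsto j1 atTop atTop) (h2 : Tendsto j2 atTop atTop)
    (t1 : Tendsto (fun i => m (j1 i + 1) - m (j1 i)) atTop (𝓝 τ1))
    (t2 : Tendsto (fun i => m (j2 i + 1) - m (j2 i)) atTop (𝓝 τ2))
    (h0 : 0 ≤ τ1) (hlt : τ1 < τ2) : False := by
  have d1 := h m W hL j1 τ1 h1 t1
  have d2 := h m W hL j2 τ2 h2 t2
  have heq : ∀ s, W (s + τ2) = W (s + τ1) := by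
    intro s
    have e := (d1 s).unique (d2 s)
    have a1 : W s ≤ W (s + τ1) := hL.mono (by linarith)
    have a2 : W (s + τ1) ≤ W (s + τ2) := hL.mono (by linarith)
    have a3 := (hL.bounds s).1
    by_contra hne
    have hlt' : W (s + τ1) < W (s + τ2) := lt_of_le_of_ne a2 (Ne.symm hne)
    have hprod : 0 < (W (s + τ2) - W (s + τ1)) * (W (s + τ1) + W (s + τ2) - W s) := by
      apply mul_pos
      · linarith
      · linarith
    nlinarith
  refine no_period hL (τ2 - τ1) (by linarith) fun u => ?_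
  have := heq (u - τ1)
  rw [sub_add_cancel] at this
  rw [← this]
  congr 1
  ring

end TauAux

theorem tauP (h : EqnP) : TauP := by
  intro m W hL
  set d : ℕ → ℝ := fun k => m (k + 1) - m k with hd
  have hd04 : ∀ k, d k ∈ Icc (0 : ℝ) 4 := by
    intro k
    have := hL.step k
    constructor <;> simp only [hd] <;> linarith [this.1, this.2]
  obtain ⟨τ, hτ, φ, hφ, hφt⟩ := (isCompact_Icc (a := (0 : ℝ)) (b := 4)).tendsto_subseq hd04
  have hconv : Tendsto d atTop (𝓝 τ) := by
    refine tendsto_of_subseq_tendsto fun ns hns => ?_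
    obtain ⟨a, ha, ψ, hψ, hψt⟩ := (isCompact_Icc (a := (0 : ℝ)) (b := 4)).tendsto_subseq
      (fun k => hd04 (ns k))
    refine ⟨ψ, ?_⟩
    have hja : Tendsto (fun i => ns (ψ i)) atTop atTop := hns.comp hψ.tendsto_atTop
    have haτ : a = τ := by
      rcases lt_trichotomy a τ with hlt | heq | hgt
      · exact (TauAux.uniq h hL (fun i => ns (ψ i)) φ a τ hja hφ.tendsto_atTop hψt hφt ha.1
          hlt).elim
      · exact heq
      · exact (TauAux.uniq h hL φ (fun i => ns (ψ i)) τ a hφ.tendsto_atTop hja hφt hψt hτ.1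
          hgt).elim
    rw [← haτ]
    exact hψt
  refine ⟨τ, ?_, hconv⟩
  rcases eq_or_lt_of_le hτ.1 with h0 | h0
  · exfalso
    have hder := h m W hL (fun i => i) τ tendsto_id hconv
    have hz : ∀ s, HasDerivAt W 0 s := by
      intro s
      have := hder s
      rw [← h0, add_zero, sub_self, mul_zero] at this
      exact this
    have hconst : ∀ x y, W x = W y :=
      is_const_of_deriv_eq_zero (fun s => (hz s).differentiableAt) (fun s => (hz s).deriv)
    have h1 : Tendsto (fun _ : ℝ => W 0) atTop (𝓝 1) := hL.top.congr fun s => hconst s 0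
    have h2 : Tendsto (fun _ : ℝ => W 0) atBot (𝓝 0) := hL.bot.congr fun s => hconst s 0
    have e1 := tendsto_nhds_unique h1 tendsto_const_nhds
    have e2 := tendsto_nhds_unique h2 tendsto_const_nhds
    linarith
  · exact h0

end Pool.Agent.R525.TW
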