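import Pool.Agent.R525.TW.Stm

/-! TW-UNI (helper164). -/

set_option autoImplicit false

open MeasureTheory Set Filter Topology

namespace Pool.Agent.R525.TW

theorem uniP : UniP := by
  intro f W hf hfb hWc hWm hbot htop hlim ε hε
  have hW0 : ∀ s, 0 ≤ W s := fun s => ge_of_tendsto' (hlim s) fun k => (hfb k s).1
  have hW1 : ∀ s, W s ≤ 1 := fun s => le_of_tendsto' (hlim s) fun k => (hfb k s).2
  have hK : ∀ s, ∃ K : ℕ, ∀ k, K ≤ k → |f k s - W s| ≤ ε / 2 := by
    intro s
    have h1 := (Metric.tendsto_atTop.mp (hlim s)) (ε / 2) (by positivity)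
    obtain ⟨K, hK⟩ := h1
    refine ⟨K, fun k hk => ?_⟩
    have := hK k hk
    rw [Real.dist_eq] at this
    exact this.le
  obtain ⟨A, hA⟩ : ∃ A, W A ≤ ε / 2 := by
    have h1 : ∀ᶠ s in atBot, W s < ε / 2 := hbot.eventually_lt_const (by positivity)
    obtain ⟨A, hA⟩ := h1.exists
    exact ⟨A, hA.le⟩
  obtain ⟨B, hB⟩ : ∃ B, 1 - ε / 2 ≤ W B := by
    have h1 : ∀ᶠ s in atTop, 1 - ε / 2 < W s := htop.eventually_const_lt (by linarith)
    obtain ⟨B, hB⟩ := h1.exists
    exact ⟨B, hB.le⟩
  have hcomp : ∃ K : ℕ, ∀ k, K ≤ k → ∀ s ∈ Icc A B, |f k s - W s| ≤ ε := by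
    refine (isCompact_Icc (a := A) (b := B)).induction_on
      (p := fun S => ∃ K : ℕ, ∀ k, K ≤ k → ∀ s ∈ S, |f k s - W s| ≤ ε) ?_ ?_ ?_ ?_
    · exact ⟨0, fun k _ s hs => absurd hs (notMem_empty s)⟩
    · rintro S T hST ⟨K, hK⟩
      exact ⟨K, fun k hk s hs => hK k hk s (hST hs)⟩
    · rintro S T ⟨K1, h1⟩ ⟨K2, h2⟩
      refine ⟨max K1 K2, fun k hk s hs => ?_⟩
      rcases hs with hs | hs
      · exact h1 k (le_trans (le_max_left _ _) hk) s hs
      · exact h2 k (le_trans (le_max_right _ _) hk) s hs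
    · intro x _
      have hc : ContinuousAt W x := hWc.continuousAt
      obtain ⟨δ, hδ, hδW⟩ := (Metric.continuousAt_iff.mp hc) (ε / 4) (by positivity)
      set a := x - δ / 2 with ha
      set b := x + δ / 2 with hb
      have h1 : |W a - W x| < ε / 4 := by
        have := hδW (x := a) (by
          rw [Real.dist_eq, ha, sub_sub_cancel_left, abs_neg, abs_of_pos (by positivity)]
          linarith)
        rwa [Real.dist_eq] at this
      have h2 : |W b - W x| < ε / 4 := by
        have := hδW (x := b) (by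
          rw [Real.dist_eq, hb, add_sub_cancel_left, abs_of_pos (by positivity)]
          linarith)
        rwa [Real.dist_eq] at this
      obtain ⟨Ka, hKa⟩ := hK a
      obtain ⟨Kb, hKb⟩ := hK b
      refine ⟨Icc a b, ?_, max Ka Kb, ?_⟩
      · apply mem_nhdsWithin_of_mem_nhds
        exact Icc_mem_nhds (by linarith) (by linarith)
      · intro k hk s hs
        have k1 := abs_le.mp (hKa k (le_trans (le_max_left _ _) hk))
        have k2 := abs_le.mp (hKb k (le_trans (le_max_right _ _) hk))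
        have m1 := hf k hs.1
        have m2 := hf k hs.2
        have m3 := hWm hs.1
        have m4 := hWm hs.2
        rw [abs_lt] at h1 h2
        rw [abs_le]
        constructor <;> linarith [h1.1, h1.2, h2.1, h2.2, k1.1, k1.2, k2.1, k2.2]
  obtain ⟨K, hKc⟩ := hcomp
  obtain ⟨KA, hKA⟩ := hK A
  obtain ⟨KB, hKB⟩ := hK B
  refine ⟨max K (max KA KB), fun k hk s => ?_⟩
  have hk1 : K ≤ k := le_trans (le_max_left _ _) hk
  have hk2 : KA ≤ k := le_trans (le_trans (le_max_left _ _) (le_max_right _ _)) hk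
  have hk3 : KB ≤ k := le_trans (le_trans (le_max_right _ _) (le_max_right _ _)) hk
  rcases lt_or_ge s A with hsA | hsA
  · have k1 := abs_le.mp (hKA k hk2)
    have m1 := hf k hsA.le
    have m2 := hWm hsA.le
    rw [abs_le]
    constructor <;> linarith [k1.1, k1.2, (hfb k s).1, hW0 s]
  · rcases lt_or_ge B s with hsB | hsB
    · have k1 := abs_le.mp (hKB k hk3)
      have m1 := hf k hsB.le
      have m2 := hWm hsB.le
      rw [abs_le]
      constructor <;> linarith [k1.1, k1.2, (hfb k s).2, hW1 s]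
    · exact hKc k hk1 s ⟨hsA, hsB⟩

end Pool.Agent.R525.TW
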