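import Pool.Agent.R525.TW.Stm

/-! TW-WID (MP_220de9_an): uniform width of the transition. helper710. -/

set_option autoImplicit false

open MeasureTheory Set Filter Topology

namespace Pool.Agent.R525.TW

namespace WidAux

theorem lower (h : BasP) (k : ℕ) (v l y : ℝ) (hl : 0 ≤ l) (hv : v ≤ F (k + 2) y) :
    F (k + 1) y * (1 - Real.exp (-(v * l))) ≤ F (k + 2) (y + l) := by
  have hc := h.cont k
  obtain ⟨Φ, hΦ⟩ : ∃ Φ : ℝ → ℝ, Φ = fun t => ∫ s in y..t, F (k + 1) s := ⟨_, rfl⟩
  have hΦd : ∀ t, HasDerivAt Φ (F (k + 1) t) t := by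
    intro t
    rw [hΦ]
    exact intervalIntegral.integral_hasDerivAt_right (hc.intervalIntegrable _ _)
      (hc.stronglyMeasurableAtFilter _ _) hc.continuousAt
  have hΦy : Φ y = 0 := by rw [hΦ]; simp
  have hΦl : v * l ≤ Φ (y + l) := by
    have h1 : ∫ s in y..(y + l), v ≤ ∫ s in y..(y + l), F (k + 1) s := by
      refine intervalIntegral.integral_mono_on (by linarith) (by simp)
        (hc.intervalIntegrable _ _) ?_
      intro s hs
      exact hv.trans ((h.mono (k + 2) hs.1).trans (h.dec (k + 1) s))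
    rw [intervalIntegral.integral_const, smul_eq_mul] at h1
    rw [hΦ]
    linarith
  have hder : ∀ t, HasDerivAt (fun t => (F (k + 1) y - F (k + 2) t) * Real.exp (Φ t))
      (Real.exp (Φ t) * F (k + 1) t * (F (k + 1) y - F (k + 1) t)) t := by
    intro t
    have h1 := ((h.der k t).const_sub (F (k + 1) y)).mul ((hΦd t).exp)
    refine HasDerivAt.congr_deriv h1 ?_
    ring
  have hanti : AntitoneOn (fun t => (F (k + 1) y - F (k + 2) t) * Real.exp (Φ t)) (Ici y) := by
    refine antitoneOn_of_deriv_nonpos (convex_Ici y)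
      (fun t _ => (hder t).continuousAt.continuousWithinAt)
      (fun t _ => (hder t).differentiableAt.differentiableWithinAt) ?_
    intro t ht
    rw [interior_Ici] at ht
    rw [(hder t).deriv]
    have h1 : F (k + 1) y ≤ F (k + 1) t := h.mono (k + 1) (le_of_lt ht)
    have h2 := h.nonneg (k + 1) t
    have h3 : 0 ≤ Real.exp (Φ t) * F (k + 1) t := mul_nonneg (Real.exp_pos _).le h2
    exact mul_nonpos_of_nonneg_of_nonpos h3 (by linarith)
  have h1 := hanti (self_mem_Ici) (show y + l ∈ Ici y by simpa using hl)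
    (show y ≤ y + l by linarith)
  simp only [hΦy, Real.exp_zero, mul_one] at h1
  have h2 : (F (k + 1) y - F (k + 2) (y + l)) * Real.exp (Φ (y + l)) ≤ F (k + 1) y := by
    linarith [h.nonneg (k + 2) y]
  have h3 : F (k + 1) y - F (k + 2) (y + l) ≤ F (k + 1) y * Real.exp (-(v * l)) := by
    have h4 : F (k + 1) y - F (k + 2) (y + l) ≤ F (k + 1) y * Real.exp (-(Φ (y + l))) := by
      have h5 := mul_le_mul_of_nonneg_right h2 (Real.exp_pos (-(Φ (y + l)))).le
      rw [mul_assoc, ← Real.exp_add, add_neg_cancel, Real.exp_zero, mul_one] at h5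
      exact h5
    refine h4.trans (mul_le_mul_of_nonneg_left ?_ (h.nonneg _ _))
    exact Real.exp_le_exp.2 (by linarith)
  linarith

theorem gap (h : BasP) (h1 : GapP) (k : ℕ) (v w y : ℝ) (hv : 0 < v) (hw : w < 1)
    (h2 : v ≤ F (k + 2) y) (h3 : F (k + 2) y ≤ w) :
    v * (1 - w) ^ 2 / 8 ≤ F (k + 1) y - F (k + 2) y := by
  have hy : 0 < y := by
    by_contra hy
    rw [not_lt] at hy
    have := h.mono (k + 2) hy
    rw [h.zero (k + 1)] at this
    linarith
  have hc := h.dec (k + 1) y
  have hv1 : v < 1 := by linarith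
  by_cases hcase : F (k + 1) y ≤ (1 + w) / 2
  · have hg := h1.1 k y hy
    refine le_trans ?_ hg
    have e1 : (1 - w) / 2 ≤ 1 - F (k + 1) y := by linarith
    have e2 : ((1 - w) / 2) ^ 2 ≤ (1 - F (k + 1) y) ^ 2 :=
      pow_le_pow_left₀ (by linarith) e1 2
    have e3 : v * ((1 - w) / 2) ^ 2 ≤ F (k + 1) y * (1 - F (k + 1) y) ^ 2 :=
      mul_le_mul (h2.trans hc) e2 (by positivity) (h.nonneg _ _)
    have e4 : v * (1 - w) ^ 2 / 8 = v * ((1 - w) / 2) ^ 2 / 2 := by ring
    rw [e4]
    linarith
  · rw [not_le] at hcase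
    have e0 : 0 < 1 - w := by linarith
    have e1 : v * (1 - w) ^ 2 ≤ 1 * (1 - w) := by
      have e5 : (1 - w) ^ 2 ≤ 1 - w := by nlinarith
      have e6 : v * (1 - w) ^ 2 ≤ 1 * (1 - w) ^ 2 :=
        mul_le_mul_of_nonneg_right hv1.le (by positivity)
      linarith
    linarith

end WidAux

open WidAux

theorem widP (h : BasP) (h1 : GapP) : WidP := by
  intro v w hv hvw hw
  have hv1 : v < 1 := hvw.trans hw
  have hw0 : 0 < w := hv.trans hvw
  obtain ⟨g, hg⟩ : ∃ g, g = v * (1 - w) ^ 2 / 8 := ⟨_, rfl⟩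
  have hw1 : 0 < 1 - w := by linarith
  have hg0 : 0 < g := by rw [hg]; positivity
  have hg1 : g < 1 := by
    rw [hg]
    nlinarith
  obtain ⟨l, hl⟩ : ∃ l, l = -Real.log (g / 3) / v := ⟨_, rfl⟩
  have hlog : Real.log (g / 3) < 0 := Real.log_neg (by positivity) (by linarith)
  have hl0 : 0 < l := by
    rw [hl]
    exact div_pos (by linarith) hv
  have hexp : Real.exp (-(v * l)) = g / 3 := by
    rw [hl, mul_div_cancel₀ _ hv.ne', neg_neg, Real.exp_log (by positivity)]
  refine ⟨max (-Real.log (1 - w)) (l * (3 / g + 1)), lt_max_of_lt_right (by positivity), ?_⟩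
  intro k x x' hx hx'
  rcases Nat.eq_zero_or_pos k with hk | hk
  · subst hk
    refine le_trans ?_ (le_max_left _ _)
    have hx0 : 0 ≤ x := by
      by_contra hlt
      rw [not_le] at hlt
      rw [h.neg _ x hlt] at hx
      linarith
    have hx0' : 0 ≤ x' := by
      by_contra hlt
      rw [not_le] at hlt
      rw [h.neg _ x' hlt] at hx'
      linarith
    rw [zero_add, h.one x' hx0'] at hx'
    have e1 : 1 - w = Real.exp (-x') := by linarith
    rw [e1, Real.log_exp]
    linarith
  · obtain ⟨j, rfl⟩ : ∃ j, k = j + 1 := ⟨k - 1, by omega⟩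
    refine le_trans ?_ (le_max_right _ _)
    have hx2 : F (j + 2) x = v := hx
    have hx2' : F (j + 2) x' = w := hx'
    have step : ∀ n : ℕ, x + n * l ≤ x' → v + n * (g / 3) ≤ F (j + 2) (x + n * l) := by
      intro n
      induction n with
      | zero =>
        intro _
        simp only [Nat.cast_zero, zero_mul, add_zero]
        rw [hx2]
      | succ n ih =>
        intro hn
        push_cast at hn ⊢
        have hn' : x + n * l ≤ x' := by linarith
        have ih' := ih hn'
        have hvy : v ≤ F (j + 2) (x + n * l) := by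
          have : 0 ≤ (n : ℝ) * (g / 3) := by positivity
          linarith
        have hyw : F (j + 2) (x + n * l) ≤ w := by
          rw [← hx2']
          exact h.mono (j + 2) hn'
        have a1 := lower h j v l (x + n * l) hl0.le hvy
        have a2 := gap h h1 j v w (x + n * l) hv hw hvy hyw
        rw [← hg] at a2
        rw [hexp] at a1
        have a3 := h.le_one (j + 1) (x + n * l)
        have a4 : F (j + 1) (x + n * l) * (g / 3) ≤ 1 * (g / 3) :=
          mul_le_mul_of_nonneg_right a3 (by positivity)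
        have e1 : x + ((n : ℝ) + 1) * l = x + n * l + l := by ring
        rw [e1]
        linarith
    by_contra hlt
    rw [not_le] at hlt
    have hn1 := Nat.ceil_lt_add_one (show (0 : ℝ) ≤ 3 / g by positivity)
    have hn2 := Nat.le_ceil (3 / g)
    have b1 : x + (⌈3 / g⌉₊ : ℝ) * l ≤ x' := by
      have : (⌈3 / g⌉₊ : ℝ) * l ≤ (3 / g + 1) * l := mul_le_mul_of_nonneg_right hn1.le hl0.le
      linarith
    have b2 := step _ b1
    have b3 := h.le_one (j + 2) (x + (⌈3 / g⌉₊ : ℝ) * l)
    have b4 : 3 / g * (g / 3) ≤ (⌈3 / g⌉₊ : ℝ) * (g / 3) :=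
      mul_le_mul_of_nonneg_right hn2 (by positivity)
    have b5 : 3 / g * (g / 3) = 1 := by field_simp
    linarith

end Pool.Agent.R525.TW
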